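import Pool.Agent.N207.VS.Ctr
import Pool.Agent.H776R3.GapVol.Sine

/-!
# VS/A2: interpolation of `log R_d` and `log S_d`
-/

set_option autoImplicit false

namespace Pool.Agent.N207.VS

open Filter Topology Metric MeasureTheory Set
open Pool.Agent.W711.HT Pool.Agent.N561
open scoped Real

/-! ### the limit of `log S_d / N` -/

/-- the strip of `δ` -/
def V : Set ℂ := {δ : ℂ | 0 < δ.re ∧ δ.re < 1}

theorem isOpen_V : IsOpen V :=
  (isOpen_lt continuous_const Complex.continuous_re).inter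
    (isOpen_lt Complex.continuous_re continuous_const)

theorem convex_V : Convex ℝ V := by
  have e : V = Complex.reCLM ⁻¹' Ioo 0 1 := by
    ext z
    simp [V]
  rw [e]
  exact (convex_Ioo _ _).linear_preimage Complex.reCLM.toLinearMap

theorem LS_ssF (δ : ℂ) : LS (π * δ) / π = ssF δ := by
  have hpi : (π : ℂ) ≠ 0 := by exact_mod_cast Real.pi_ne_zero
  unfold LS ssF
  have : ∫ t in (0:ℝ)..1, Complex.log (2 * Complex.sin (t * (π * δ))) =
      ∫ t in (0:ℝ)..1, Complex.log (2 * Complex.sin (π * δ * t)) := by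
    congr 1
    funext t
    congr 3
    ring
  rw [this]
  field_simp

theorem sin_re (z : ℂ) : (Complex.sin z).re = Real.sin z.re * Real.cosh z.im := by
  rw [Complex.sin_eq z]
  have e : Complex.sin z.re * Complex.cosh z.im + Complex.cos z.re * Complex.sinh z.im * Complex.I =
      ((Real.sin z.re * Real.cosh z.im : ℝ) : ℂ) + ((Real.cos z.re * Real.sinh z.im : ℝ) : ℂ) *
        Complex.I := by
    push_cast
    ring
  rw [e, Complex.add_re, Complex.ofReal_re, Complex.re_ofReal_mul, Complex.I_re]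
  ring

theorem kk_slit (δ : ℂ) (hδ : δ ∈ V) (t : ℝ) (ht : t ∈ Icc (0:ℝ) 1) :
    Pool.Agent.W398.HT.kk δ t ∈ Complex.slitPlane := by
  have hpi := Real.pi_pos
  left
  rcases ht.1.eq_or_lt with h0 | h0
  · rw [← h0]
    unfold Pool.Agent.W398.HT.kk
    rw [Complex.ofReal_zero, mul_zero, Pool.Agent.W398.HT.sc_zero, mul_one]
    have : (2 * (π : ℂ) * δ).re = 2 * π * δ.re := by
      have : (2 * (π : ℂ)) = ((2 * π : ℝ) : ℂ) := by push_cast; ring
      rw [this, Complex.re_ofReal_mul]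
    rw [this]
    have := hδ.1
    positivity
  · have h1 := Pool.Agent.W398.HT.sin_kk δ t
    have h2 : (t : ℂ) ≠ 0 := by exact_mod_cast h0.ne'
    have h3 : Pool.Agent.W398.HT.kk δ t = ((t⁻¹ * 2 : ℝ) : ℂ) * Complex.sin (π * δ * t) := by
      push_cast
      rw [mul_assoc, h1, inv_mul_cancel_left₀ h2]
    rw [h3, Complex.re_ofReal_mul, sin_re]
    have e1 : ((π : ℂ) * δ * t).re = π * δ.re * t := by
      have : ((π : ℂ) * δ * t) = ((π * t : ℝ) : ℂ) * δ := by push_cast; ring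
      rw [this, Complex.re_ofReal_mul]
      ring
    rw [e1]
    have h4 : 0 < Real.sin (π * δ.re * t) := by
      have h5 := hδ.1
      have h6 := hδ.2
      apply Real.sin_pos_of_pos_of_lt_pi (by positivity)
      have h7 : δ.re * t < 1 := by nlinarith [ht.2]
      calc π * δ.re * t = π * (δ.re * t) := by ring
        _ < π * 1 := mul_lt_mul_of_pos_left h7 hpi
        _ = π := mul_one _
    have h8 := Real.cosh_pos ((π : ℂ) * δ * t).im
    positivity

theorem half_mem {δ : ℂ} (hδ : δ ∈ V) : (π / 2 - π * δ : ℂ) ∈ W := by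
  have hpi := Real.pi_pos
  show |(π / 2 - π * δ : ℂ).re| < π / 2
  have e1 : (π / 2 - π * δ : ℂ).re = π / 2 - π * δ.re := by
    rw [Complex.sub_re, Complex.re_ofReal_mul]
    congr 1
    have : (π / 2 : ℂ) = ((π / 2 : ℝ) : ℂ) := by push_cast; ring
    rw [this, Complex.ofReal_re]
  rw [e1, abs_lt]
  have h5 := hδ.1
  have h6 := hδ.2
  constructor <;> nlinarith

theorem g_half (δ : ℂ) : g (π / 2 - π * δ) = Complex.log (2 * Complex.sin (π * δ)) := by
  unfold g
  rw [Complex.cos_pi_div_two_sub]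

theorem ssF_half : ssF (1 / 2) = 0 := by
  have hpi := Real.pi_pos
  unfold ssF
  have h1 : ∫ t in (0:ℝ)..1, Complex.log (2 * Complex.sin (π * (1 / 2) * t)) =
      ∫ t in (0:ℝ)..1, ((Real.log 2 + Real.log (Real.sin (π / 2 * t)) : ℝ) : ℂ) := by
    apply intervalIntegral.integral_congr_ae
    refine Eventually.of_forall fun t ht => ?_
    rw [uIoc_of_le zero_le_one] at ht
    have h2 : 0 < Real.sin (π / 2 * t) := by
      have := ht.1
      apply Real.sin_pos_of_pos_of_lt_pi (by positivity)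
      nlinarith [ht.2]
    have h3 : (2 : ℂ) * Complex.sin (π * (1 / 2) * t) = ((2 * Real.sin (π / 2 * t) : ℝ) : ℂ) := by
      push_cast
      congr 2
      ring
    rw [h3, ← Complex.ofReal_log (by positivity), Real.log_mul (by norm_num) h2.ne']
  have h4 : IntervalIntegrable (fun t => Real.log (Real.sin (π / 2 * t))) volume 0 1 := by
    have h2 : IntervalIntegrable (Real.log ∘ Real.sin) volume (π / 2 * 0) (π / 2 * 1) :=
      intervalIntegrable_log_sin
    have h3 := h2.comp_mul_left (c := π / 2)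
    have e1 : π / 2 * 0 / (π / 2) = 0 := by simp
    have e2 : π / 2 * 1 / (π / 2) = 1 := by field_simp
    rw [e1, e2] at h3
    exact h3
  rw [h1, intervalIntegral.integral_ofReal, intervalIntegral.integral_add
    intervalIntegrable_const h4, intervalIntegral.integral_const,
    intervalIntegral.integral_comp_mul_left (fun t => Real.log (Real.sin t)) (by positivity),
    mul_zero, mul_one, integral_log_sin_zero_pi_div_two]
  have : (1 - 0 : ℝ) • Real.log 2 + (π / 2)⁻¹ • (-Real.log 2 * π / 2) = 0 := by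
    simp only [smul_eq_mul]
    field_simp
    ring
  rw [this]
  simp

theorem ssF_LL {δ : ℂ} (hδ : δ ∈ V) : ssF δ = -(LL (π / 2 - π * δ) / π) := by
  have hpi : (π : ℂ) ≠ 0 := by exact_mod_cast Real.pi_ne_zero
  have hd : ∀ z ∈ V, HasDerivAt (fun z => ssF z + LL (π / 2 - π * z) / π) 0 z := by
    intro z hz
    have h1 := Pool.Agent.W398.HT.ss_deriv isOpen_V kk_slit z hz
    have h2 : HasDerivAt (fun z : ℂ => π / 2 - π * z) (-(π * 1)) z :=
      ((hasDerivAt_id z).const_mul (π : ℂ)).const_sub _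
    have h3 := ((LL_deriv (half_mem hz)).comp z h2).div_const (π : ℂ)
    refine (h1.add h3).congr_deriv ?_
    rw [g_half]
    field_simp
    ring
  have hhalf : (1 / 2 : ℂ) ∈ V := by
    constructor <;> norm_num
  have h := convex_V.norm_image_sub_le_of_norm_hasDerivWithin_le
    (f := fun z => ssF z + LL (π / 2 - π * z) / π) (f' := fun _ => 0) (C := 0)
    (fun z hz => (hd z hz).hasDerivWithinAt) (fun z _ => by simp) hhalf hδ
  rw [zero_mul] at h
  have h2 := norm_le_zero_iff.1 h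
  have e : (π / 2 - π * (1 / 2) : ℂ) = 0 := by ring
  rw [ssF_half, e, LL_zero] at h2
  linear_combination h2

/-! ### the interpolation of `log R_d` -/

theorem N_facts {N : ℕ} (hN : 1 ≤ N) : (0:ℝ) < N ∧ 0 ≤ (1 / N : ℝ) ∧ (1 / N : ℝ) ≤ 1 := by
  have h1 : (1:ℝ) ≤ N := by exact_mod_cast hN
  have h2 : (0:ℝ) < N := by linarith
  exact ⟨h2, by positivity, by rw [div_le_one h2]; exact h1⟩

/-- the interpolation -/
noncomputable def rr (N : ℕ) (p : ℂ × ℂ) : ℂ :=
  (Gf (1 / N) (π * p.1 + p.2 / 2) + Gf (1 / N) (π * p.1 - p.2 / 2)) / π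

theorem re1 (δ ψ : ℂ) : (π * δ + ψ / 2 : ℂ).re = π * δ.re + ψ.re / 2 := by
  rw [Complex.add_re, Complex.re_ofReal_mul]
  congr 1
  simp

theorem re2 (δ ψ : ℂ) : (π * δ - ψ / 2 : ℂ).re = π * δ.re - ψ.re / 2 := by
  rw [Complex.sub_re, Complex.re_ofReal_mul]
  congr 1
  simp

theorem DA_mem {p : ℂ × ℂ} (hp : p ∈ DA) : (π * p.1 + p.2 / 2 : ℂ) ∈ W ∧
    (π * p.1 - p.2 / 2 : ℂ) ∈ W := by
  have hpi := Real.pi_pos
  have h : 2 * π * |p.1.re| + |p.2.re| < π := hp
  constructor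
  · show |(π * p.1 + p.2 / 2 : ℂ).re| < π / 2
    rw [re1]
    have := abs_add_le (π * p.1.re) (p.2.re / 2)
    rw [abs_mul, abs_of_pos hpi, abs_div, abs_of_pos (by norm_num : (0:ℝ) < 2)] at this
    linarith
  · show |(π * p.1 - p.2 / 2 : ℂ).re| < π / 2
    rw [re2]
    have := abs_sub (π * p.1.re) (p.2.re / 2)
    rw [abs_mul, abs_of_pos hpi, abs_div, abs_of_pos (by norm_num : (0:ℝ) < 2)] at this
    linarith

theorem rr_diff {N : ℕ} (hN : 1 ≤ N) : DifferentiableOn ℂ (rr N) DA := by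
  obtain ⟨h0, h1, h2⟩ := N_facts hN
  intro p hp
  obtain ⟨m1, m2⟩ := DA_mem hp
  apply DifferentiableAt.differentiableWithinAt
  unfold rr
  simp only [div_eq_mul_inv _ (π : ℂ)]
  apply DifferentiableAt.mul_const
  apply DifferentiableAt.add
  · exact (Gf_deriv _ h1 h2 m1).differentiableAt.comp p (f := fun p : ℂ × ℂ => π * p.1 + p.2 / 2)
      (by fun_prop)
  · exact (Gf_deriv _ h1 h2 m2).differentiableAt.comp p (f := fun p : ℂ × ℂ => π * p.1 - p.2 / 2)
      (by fun_prop)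

theorem rr_exp {N : ℕ} (hN : 1 ≤ N) (ψ : ℂ) (d : ℕ) (hp : (((d : ℂ) / N, ψ) : ℂ × ℂ) ∈ DA) :
    Rp N d ψ = Complex.exp (N * rr N ((d : ℂ) / N, ψ)) := by
  obtain ⟨h0, h1, h2⟩ := N_facts hN
  have hpi := Real.pi_pos
  have hpc : (π : ℂ) ≠ 0 := by exact_mod_cast hpi.ne'
  have hNc : (N : ℂ) ≠ 0 := by exact_mod_cast h0.ne'
  have hre : ∀ d : ℕ, ((d : ℂ) / N).re = (d : ℝ) / N := by
    intro d
    have : ((d : ℂ) / N) = ((d / N : ℝ) : ℂ) := by push_cast; ring
    rw [this, Complex.ofReal_re]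
  induction d with
  | zero =>
    unfold Rp rr
    have e1 : (π * (((0:ℕ) : ℂ) / N) + ψ / 2 : ℂ) = ψ / 2 := by simp
    have e2 : (π * (((0:ℕ) : ℂ) / N) - ψ / 2 : ℂ) = -(ψ / 2) := by simp
    simp only [Finset.range_zero, Finset.prod_empty]
    rw [e1, e2, Gf_neg]
    simp
  | succ d ih =>
    have hp' : 2 * π * |(((d + 1 : ℕ) : ℂ) / N).re| + |ψ.re| < π := hp
    rw [hre, abs_of_nonneg (by positivity)] at hp'
    have hd : (((d : ℂ) / N, ψ) : ℂ × ℂ) ∈ DA := by
      show 2 * π * |((d : ℂ) / N).re| + |ψ.re| < π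
      rw [hre, abs_of_nonneg (by positivity)]
      have : (d : ℝ) / N ≤ ((d + 1 : ℕ) : ℝ) / N := by
        apply div_le_div_of_nonneg_right _ h0.le
        push_cast
        linarith
      nlinarith
    have ih' := ih hd
    have hdN : 0 ≤ (d : ℝ) / N := by positivity
    have key : 2 * π * ((d : ℝ) / N) + 2 * π * (1 / N) + |ψ.re| < π := by
      have : ((d + 1 : ℕ) : ℝ) / N = (d : ℝ) / N + 1 / N := by push_cast; ring
      rw [this] at hp'
      linarith
    set wp : ℂ := π * ((d : ℂ) / N) + ψ / 2 + (π * (1 / N) / 2 : ℝ) with hwp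
    set wm : ℂ := π * ((d : ℂ) / N) - ψ / 2 + (π * (1 / N) / 2 : ℝ) with hwm
    have hhp : 0 ≤ π * (1 / N : ℝ) / 2 := by positivity
    have c1 : |wp.re| + π * (1 / N) / 2 < π / 2 := by
      rw [hwp, Complex.add_re, re1, hre, Complex.ofReal_re]
      have t1 := abs_add_le (π * ((d : ℝ) / N) + ψ.re / 2) (π * (1 / N : ℝ) / 2)
      have t2 := abs_add_le (π * ((d : ℝ) / N)) (ψ.re / 2)
      rw [abs_of_nonneg (by positivity : 0 ≤ π * ((d : ℝ) / N)), abs_div,
        abs_of_pos (by norm_num : (0:ℝ) < 2)] at t2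
      rw [abs_of_nonneg hhp] at t1
      linarith
    have c2 : |wm.re| + π * (1 / N) / 2 < π / 2 := by
      rw [hwm, Complex.add_re, re2, hre, Complex.ofReal_re]
      have t1 := abs_add_le (π * ((d : ℝ) / N) - ψ.re / 2) (π * (1 / N : ℝ) / 2)
      have t2 := abs_sub (π * ((d : ℝ) / N)) (ψ.re / 2)
      rw [abs_of_nonneg (by positivity : 0 ≤ π * ((d : ℝ) / N)), abs_div,
        abs_of_pos (by norm_num : (0:ℝ) < 2)] at t2
      rw [abs_of_nonneg hhp] at t1
      linarith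
    have d1 := Gf_diff h1 h2 c1
    have d2 := Gf_diff h1 h2 c2
    have e1 : wp - (π * (1 / N) / 2 : ℝ) = π * ((d : ℂ) / N) + ψ / 2 := by rw [hwp]; ring
    have e2 : wm - (π * (1 / N) / 2 : ℝ) = π * ((d : ℂ) / N) - ψ / 2 := by rw [hwm]; ring
    have e3 : wp + (π * (1 / N) / 2 : ℝ) = π * (((d + 1 : ℕ) : ℂ) / N) + ψ / 2 := by
      rw [hwp]; push_cast; field_simp; ring
    have e4 : wm + (π * (1 / N) / 2 : ℝ) = π * (((d + 1 : ℕ) : ℂ) / N) - ψ / 2 := by
      rw [hwm]; push_cast; field_simp; ring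
    rw [e1, e3] at d1
    rw [e2, e4] at d2
    have e5 : (N : ℂ) * rr N (((d + 1 : ℕ) : ℂ) / N, ψ) =
        (N : ℂ) * rr N ((d : ℂ) / N, ψ) + (g wp + g wm) := by
      unfold rr
      simp only
      have e6 : (N : ℂ) * (1 / N : ℝ) = 1 := by push_cast; field_simp
      have q1 : Gf (1 / N) (π * (((d + 1 : ℕ) : ℂ) / N) + ψ / 2) =
          Gf (1 / N) (π * ((d : ℂ) / N) + ψ / 2) + π * (1 / N : ℝ) * g wp := by
        linear_combination d1
      have q2 : Gf (1 / N) (π * (((d + 1 : ℕ) : ℂ) / N) - ψ / 2) =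
          Gf (1 / N) (π * ((d : ℂ) / N) - ψ / 2) + π * (1 / N : ℝ) * g wm := by
        linear_combination d2
      rw [q1, q2]
      push_cast
      field_simp
      ring
    have mp : wp ∈ W := by
      show |wp.re| < π / 2
      linarith
    have mm : wm ∈ W := by
      show |wm.re| < π / 2
      linarith
    rw [e5, Complex.exp_add, ← ih', Complex.exp_add, exp_g mp, exp_g mm]
    unfold Rp
    rw [Finset.prod_range_succ]
    congr 1
    have e7 : (Real.cos (phi N d) : ℂ) = Complex.cos (wp + wm) := by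
      rw [Complex.ofReal_cos]
      congr 1
      rw [hwp, hwm]
      unfold phi
      push_cast
      field_simp
      ring
    have e8 : Complex.cos ψ = Complex.cos (wp - wm) := by
      congr 1
      rw [hwp, hwm]
      ring
    rw [e7, e8, Complex.cos_add, Complex.cos_sub]
    ring

/-! ### the interpolation of `log S_d` -/

theorem GapVol_sin_pos {N k : ℕ} (h1 : 1 ≤ k) (h2 : k < N) : 0 < Real.sin (π * k / N) :=
  GapVol.sin_pos_of h1 h2

theorem Sd_pos {N d : ℕ} (hd : d < N) : 0 < Sd N d := by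
  unfold Sd
  refine Finset.prod_pos fun k hk => ?_
  rw [Finset.mem_range] at hk
  have := GapVol_sin_pos (N := N) (k := k + 1) (by omega) (by omega)
  push_cast at this
  positivity

theorem Sd_full {N : ℕ} (hN : 1 ≤ N) : Sd N (N - 1) = N := by
  rw [← GapVol.prod_sin N hN]
  unfold Sd
  refine Finset.prod_congr rfl fun k _ => ?_
  push_cast
  ring

/-- `π / 2 - h` -/
noncomputable def tp (N : ℕ) : ℂ := ((π / 2 - π * (1 / N) / 2 : ℝ) : ℂ)

theorem Sd_sum {N : ℕ} (hN : 1 ≤ N) (d : ℕ) (hd : d < N) :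
    Gf (1 / N) (tp N) - Gf (1 / N) (tp N - π * ((d : ℂ) / N)) =
      π * (1 / N : ℝ) * (Real.log (Sd N d) : ℂ) := by
  obtain ⟨h0, h1, h2⟩ := N_facts hN
  have hpi := Real.pi_pos
  have hNc : (N : ℂ) ≠ 0 := by exact_mod_cast h0.ne'
  induction d with
  | zero =>
    unfold Sd
    simp
  | succ d ih =>
    have ih' := ih (by omega)
    set w : ℂ := ((π / 2 - π * ((d + 1 : ℕ) : ℝ) / N : ℝ) : ℂ) with hw
    have hd1 : ((d + 1 : ℕ) : ℝ) + 1 ≤ N := by exact_mod_cast hd
    have hdN : ((d + 1 : ℕ) : ℝ) / N + 1 / N ≤ 1 := by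
      rw [← add_div, div_le_one h0]
      exact hd1
    have hdN1 : 1 / N ≤ ((d + 1 : ℕ) : ℝ) / N := by
      apply div_le_div_of_nonneg_right _ h0.le
      push_cast
      have : (0:ℝ) ≤ d := by positivity
      linarith
    have hinv : 0 < (1 / N : ℝ) := by positivity
    have c1 : |w.re| + π * (1 / N) / 2 < π / 2 := by
      rw [hw, Complex.ofReal_re]
      have t1 : |π / 2 - π * ((d + 1 : ℕ) : ℝ) / N| ≤ π / 2 - π * (1 / N) := by
        rw [mul_div_assoc, abs_le]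
        constructor <;> nlinarith
      have : 0 < π * (1 / N : ℝ) := by positivity
      linarith
    have d1 := Gf_diff h1 h2 c1
    have e1 : w + (π * (1 / N) / 2 : ℝ) = tp N - π * ((d : ℂ) / N) := by
      rw [hw, tp]
      push_cast
      field_simp
      ring
    have e2 : w - (π * (1 / N) / 2 : ℝ) = tp N - π * (((d + 1 : ℕ) : ℂ) / N) := by
      rw [hw, tp]
      push_cast
      field_simp
      ring
    rw [e1, e2] at d1
    have hs := GapVol_sin_pos (N := N) (k := d + 1) (by omega) hd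
    have hSd := Sd_pos (N := N) (d := d) (by omega)
    have e3 : g w = (Real.log (2 * Real.sin (π * ((d + 1 : ℕ) : ℝ) / N)) : ℂ) := by
      unfold g
      rw [Complex.ofReal_log (by positivity)]
      congr 1
      rw [hw, ← Complex.ofReal_cos, Real.cos_pi_div_two_sub]
      push_cast
      ring
    have e4 : Sd N (d + 1) = Sd N d * (2 * Real.sin (π * ((d + 1 : ℕ) : ℝ) / N)) := by
      unfold Sd
      rw [Finset.prod_range_succ]
      congr 3
      push_cast
      ring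
    rw [e4, Real.log_mul hSd.ne' (by positivity)]
    rw [e3] at d1
    push_cast at d1 ih' ⊢
    linear_combination d1 + ih'

theorem G_top {N : ℕ} (hN : 1 ≤ N) : Gf (1 / N) (tp N) = π * (1 / N : ℝ) * (Real.log N : ℂ) / 2 := by
  obtain ⟨h0, h1, h2⟩ := N_facts hN
  have hNc : (N : ℂ) ≠ 0 := by exact_mod_cast h0.ne'
  have h := Sd_sum hN (N - 1) (by omega)
  rw [Sd_full hN] at h
  have e : tp N - π * (((N - 1 : ℕ) : ℂ) / N) = -(tp N) := by
    rw [tp, Nat.cast_sub hN]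
    push_cast
    field_simp
    ring
  rw [e, Gf_neg] at h
  linear_combination h / 2

/-- the first formula -/
noncomputable def F1 (N : ℕ) (δ : ℂ) : ℂ :=
  (π * (1 / N : ℝ) * (Real.log N : ℂ) / 2 - Gf (1 / N) (tp N - π * δ)) / π

/-- the second formula -/
noncomputable def F2 (N : ℕ) (δ : ℂ) : ℂ :=
  (π * (1 / N : ℝ) * (Real.log N : ℂ) / 2 - Gf (1 / N) (tp N + (π * (1 / N) : ℝ) - π * δ)) / π +
    (1 / N : ℝ) * g (π / 2 - π * δ)

/-- the interpolation -/
noncomputable def ss (N : ℕ) (δ : ℂ) : ℂ :=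
  if N = 1 then 0 else if δ.re ≤ 1 / 2 then F1 N δ else F2 N δ

theorem F12 {N : ℕ} (hN : 1 ≤ N) {δ : ℂ} (h1 : 1 / N / 2 < δ.re) (h2 : δ.re < 1 - 1 / N / 2) :
    F1 N δ = F2 N δ := by
  obtain ⟨h0, h3, h4⟩ := N_facts hN
  have hpi := Real.pi_pos
  have hpc : (π : ℂ) ≠ 0 := by exact_mod_cast hpi.ne'
  have e1 : (π / 2 - π * δ : ℂ).re = π / 2 - π * δ.re := by
    rw [Complex.sub_re, Complex.re_ofReal_mul]
    congr 1
    have : (π / 2 : ℂ) = ((π / 2 : ℝ) : ℂ) := by push_cast; ring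
    rw [this, Complex.ofReal_re]
  have c1 : |(π / 2 - π * δ : ℂ).re| + π * (1 / N) / 2 < π / 2 := by
    rw [e1, ← lt_sub_iff_add_lt, abs_lt]
    constructor <;> nlinarith
  have d1 := Gf_diff h3 h4 c1
  have e2 : (π / 2 - π * δ : ℂ) + (π * (1 / N) / 2 : ℝ) = tp N + (π * (1 / N) : ℝ) - π * δ := by
    rw [tp]; push_cast; ring
  have e3 : (π / 2 - π * δ : ℂ) - (π * (1 / N) / 2 : ℝ) = tp N - π * δ := by
    rw [tp]; push_cast; ring
  rw [e2, e3] at d1
  unfold F1 F2
  rw [div_add' _ _ _ hpc]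
  congr 1
  linear_combination d1

theorem ss_F1 {N : ℕ} (hN : 2 ≤ N) {δ : ℂ} (h2 : δ.re < 1 - 1 / N / 2) : ss N δ = F1 N δ := by
  unfold ss
  rw [if_neg (by omega)]
  split_ifs with h
  · rfl
  · refine (F12 (by omega) ?_ h2).symm
    have h3 : (2:ℝ) ≤ N := by exact_mod_cast hN
    have h4 : (1 / N : ℝ) ≤ 1 / 2 := by
      apply div_le_div_of_nonneg_left <;> linarith
    push Not at h
    linarith

theorem ss_F2 {N : ℕ} (hN : 2 ≤ N) {δ : ℂ} (h1 : 1 / N / 2 < δ.re) : ss N δ = F2 N δ := by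
  unfold ss
  rw [if_neg (by omega)]
  split_ifs with h
  · refine F12 (by omega) h1 ?_
    have h3 : (2:ℝ) ≤ N := by exact_mod_cast hN
    have h4 : (1 / N : ℝ) ≤ 1 / 2 := by
      apply div_le_div_of_nonneg_left <;> linarith
    linarith
  · rfl

theorem tp_re (N : ℕ) (δ : ℂ) : (tp N - π * δ).re = π / 2 - π * (1 / N) / 2 - π * δ.re := by
  rw [Complex.sub_re, Complex.re_ofReal_mul, tp, Complex.ofReal_re]

theorem F1_diff {N : ℕ} (hN : 1 ≤ N) {δ : ℂ} (h1 : 0 < δ.re) (h2 : δ.re < 1 - 1 / N / 2) :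
    DifferentiableAt ℂ (F1 N) δ := by
  obtain ⟨h0, h3, h4⟩ := N_facts hN
  have hpi := Real.pi_pos
  unfold F1
  apply DifferentiableAt.div_const
  apply DifferentiableAt.const_sub
  have hm : tp N - π * δ ∈ W := by
    show |(tp N - π * δ).re| < π / 2
    rw [tp_re, abs_lt]
    constructor <;> nlinarith
  exact (Gf_deriv _ h3 h4 hm).differentiableAt.comp δ (f := fun δ : ℂ => tp N - π * δ)
    (by fun_prop)

theorem F2_diff {N : ℕ} (hN : 1 ≤ N) {δ : ℂ} (h1 : 1 / N / 2 < δ.re) (h2 : δ.re < 1) :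
    DifferentiableAt ℂ (F2 N) δ := by
  obtain ⟨h0, h3, h4⟩ := N_facts hN
  have hpi := Real.pi_pos
  have h5 : 0 ≤ (1 / N / 2 : ℝ) := by positivity
  unfold F2
  have hm : tp N + (π * (1 / N) : ℝ) - π * δ ∈ W := by
    show |(tp N + (π * (1 / N) : ℝ) - π * δ).re| < π / 2
    rw [Complex.sub_re, Complex.re_ofReal_mul, Complex.add_re, tp, Complex.ofReal_re,
      Complex.ofReal_re, abs_lt]
    constructor <;> nlinarith
  have hm2 := half_mem (δ := δ) ⟨by linarith, h2⟩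
  apply DifferentiableAt.add
  · apply DifferentiableAt.div_const
    apply DifferentiableAt.const_sub
    exact (Gf_deriv _ h3 h4 hm).differentiableAt.comp δ
      (f := fun δ : ℂ => tp N + (π * (1 / N) : ℝ) - π * δ) (by fun_prop)
  · apply DifferentiableAt.const_mul
    exact (g_deriv hm2).differentiableAt.comp δ (f := fun δ : ℂ => π / 2 - π * δ) (by fun_prop)

theorem ss_diff {N : ℕ} (hN : 1 ≤ N) : DifferentiableOn ℂ (ss N) V := by
  intro δ hδ
  apply DifferentiableAt.differentiableWithinAt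
  by_cases h1 : N = 1
  · have : ss N = fun _ => 0 := by
      funext z
      unfold ss
      rw [if_pos h1]
    rw [this]
    exact differentiableAt_const _
  · have hN2 : 2 ≤ N := by omega
    have h3 : (2:ℝ) ≤ N := by exact_mod_cast hN2
    have h4 : (1 / N : ℝ) ≤ 1 / 2 := by
      apply div_le_div_of_nonneg_left <;> linarith
    rcases le_or_gt δ.re (1 / 2) with h | h
    · have h5 : δ.re < 1 - 1 / N / 2 := by linarith
      refine (F1_diff hN hδ.1 h5).congr_of_eventuallyEq ?_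
      have : {z : ℂ | z.re < 1 - 1 / N / 2} ∈ 𝓝 δ :=
        (isOpen_lt Complex.continuous_re continuous_const).mem_nhds h5
      filter_upwards [this] with z hz
      exact ss_F1 hN2 hz
    · have h5 : 1 / N / 2 < δ.re := by linarith
      refine (F2_diff hN h5 hδ.2).congr_of_eventuallyEq ?_
      have : {z : ℂ | 1 / N / 2 < z.re} ∈ 𝓝 δ :=
        (isOpen_lt continuous_const Complex.continuous_re).mem_nhds h5
      filter_upwards [this] with z hz
      exact ss_F2 hN2 hz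

theorem ss_exp {N d : ℕ} (h1 : 1 ≤ d) (h2 : d < N) :
    (Sd N d : ℂ) = Complex.exp (N * ss N ((d : ℂ) / N)) := by
  have hN2 : 2 ≤ N := by omega
  obtain ⟨h0, h3, h4⟩ := N_facts (by omega : 1 ≤ N)
  have hpi := Real.pi_pos
  have hpc : (π : ℂ) ≠ 0 := by exact_mod_cast hpi.ne'
  have hNc : (N : ℂ) ≠ 0 := by exact_mod_cast h0.ne'
  have e1 : ((d : ℂ) / N).re = (d : ℝ) / N := by
    have : ((d : ℂ) / N) = ((d / N : ℝ) : ℂ) := by push_cast; ring
    rw [this, Complex.ofReal_re]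
  have h5 : ((d : ℂ) / N).re < 1 - 1 / N / 2 := by
    rw [e1]
    have h6 : (d : ℝ) + 1 ≤ N := by exact_mod_cast h2
    have h7 : (d : ℝ) / N + 1 / N ≤ 1 := by
      rw [← add_div, div_le_one h0]
      exact h6
    have : 0 < (1 / N : ℝ) := by positivity
    linarith
  rw [ss_F1 hN2 h5]
  have h6 := Sd_sum (by omega : 1 ≤ N) d h2
  rw [G_top (by omega : 1 ≤ N)] at h6
  have e2 : (N : ℂ) * F1 N ((d : ℂ) / N) = (Real.log (Sd N d) : ℂ) := by
    unfold F1
    rw [h6]
    push_cast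
    field_simp
  rw [e2, ← Complex.ofReal_exp, Real.exp_log (Sd_pos h2)]

/-! ### convergence -/

theorem cpt {K : Set ℂ} (hK : IsCompact K) (hKW : K ⊆ W) : ∃ c B : ℝ, 0 < c ∧ c ≤ π / 2 ∧ 0 ≤ B ∧
    ∀ w ∈ K, |w.re| ≤ π / 2 - c ∧ |w.im| ≤ B := by
  have hpi := Real.pi_pos
  rcases K.eq_empty_or_nonempty with h | h
  · exact ⟨π / 2, 0, by positivity, le_rfl, le_rfl, fun w hw => by rw [h] at hw; exact absurd hw (by simp)⟩
  obtain ⟨w₀, hw₀, hmax⟩ := hK.exists_isMaxOn h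
    (f := fun w : ℂ => |w.re|) (by fun_prop)
  obtain ⟨B, hB⟩ := hK.exists_bound_of_continuousOn (f := fun w : ℂ => (w.im : ℝ)) (by fun_prop)
  have h1 : |w₀.re| < π / 2 := hKW hw₀
  refine ⟨π / 2 - |w₀.re|, max B 0, by linarith, by linarith [abs_nonneg w₀.re], le_max_right _ _,
    fun w hw => ⟨?_, ?_⟩⟩
  · have := hmax hw
    simp only [mem_ofPred_eq] at this
    linarith
  · exact (hB w hw).trans (le_max_left _ _)

theorem tend1 (C : ℝ) : Tendsto (fun N : ℕ => C * (1 / N : ℝ)) atTop (𝓝 0) := by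
  have := (tendsto_one_div_atTop_nhds_zero_nat (𝕜 := ℝ)).const_mul C
  simpa using this

theorem rr_tend (K : Set (ℂ × ℂ)) (hKD : K ⊆ DA) (hK : IsCompact K) :
    TendstoUniformlyOn rr (fun p => RR p.1 p.2) atTop K := by
  have hpi := Real.pi_pos
  have k1 : IsCompact ((fun p : ℂ × ℂ => (π * p.1 + p.2 / 2 : ℂ)) '' K) :=
    hK.image (by fun_prop)
  have k2 : IsCompact ((fun p : ℂ × ℂ => (π * p.1 - p.2 / 2 : ℂ)) '' K) :=
    hK.image (by fun_prop)
  obtain ⟨c1, B1, hc1, hc1', hB1, h1⟩ := cpt k1 (by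
    rintro _ ⟨p, hp, rfl⟩; exact (DA_mem (hKD hp)).1)
  obtain ⟨c2, B2, hc2, hc2', hB2, h2⟩ := cpt k2 (by
    rintro _ ⟨p, hp, rfl⟩; exact (DA_mem (hKD hp)).2)
  obtain ⟨C1, hC1, hG1⟩ := Gf_close c1 hc1 hc1'
  obtain ⟨C2, hC2, hG2⟩ := Gf_close c2 hc2 hc2'
  rw [Metric.tendstoUniformlyOn_iff]
  intro ε hε
  have ht := tend1 ((C1 * (1 + B1) + C2 * (1 + B2)) / π)
  filter_upwards [ht.eventually (gt_mem_nhds hε), eventually_ge_atTop 1] with N hN hN1 p hp
  obtain ⟨h0, h3, h4⟩ := N_facts hN1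
  have q1 := hG1 B1 (1 / N) _ h3 h4 (h1 _ ⟨p, hp, rfl⟩).1 (h1 _ ⟨p, hp, rfl⟩).2
  have q2 := hG2 B2 (1 / N) _ h3 h4 (h2 _ ⟨p, hp, rfl⟩).1 (h2 _ ⟨p, hp, rfl⟩).2
  rw [dist_comm, dist_eq_norm]
  refine lt_of_le_of_lt ?_ hN
  have e : rr N p - RR p.1 p.2 = ((Gf (1 / N) (π * p.1 + p.2 / 2) - LL (π * p.1 + p.2 / 2)) +
      (Gf (1 / N) (π * p.1 - p.2 / 2) - LL (π * p.1 - p.2 / 2))) / π := by
    unfold rr RR
    ring
  rw [e, norm_div]
  have e2 : ‖(π : ℂ)‖ = π := by rw [Complex.norm_real, Real.norm_eq_abs, abs_of_pos hpi]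
  rw [e2, div_mul_eq_mul_div]
  apply div_le_div_of_nonneg_right _ hpi.le
  have := norm_add_le (Gf (1 / N) (π * p.1 + p.2 / 2) - LL (π * p.1 + p.2 / 2))
    (Gf (1 / N) (π * p.1 - p.2 / 2) - LL (π * p.1 - p.2 / 2))
  linarith

theorem logN : Tendsto (fun N : ℕ => Real.log N * (1 / N : ℝ)) atTop (𝓝 0) := by
  have h := (Real.isLittleO_log_id_atTop.tendsto_div_nhds_zero).comp tendsto_natCast_atTop_atTop
  refine h.congr fun N => ?_
  simp only [Function.comp, id]
  ring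

theorem ss_tend (K : Set ℂ) (hKV : K ⊆ V) (hK : IsCompact K) :
    TendstoUniformlyOn ss (fun δ => LS (π * δ) / π) atTop K := by
  have hpi := Real.pi_pos
  have hpc : (π : ℂ) ≠ 0 := by exact_mod_cast hpi.ne'
  have k1 : IsCompact ((fun δ : ℂ => (π / 2 - π * δ : ℂ)) '' K) := hK.image (by fun_prop)
  obtain ⟨c, B, hc, hc', hB, h1⟩ := cpt k1 (by
    rintro _ ⟨p, hp, rfl⟩; exact half_mem (hKV hp))
  obtain ⟨C1, hC1, hG1⟩ := Gf_close (c / 2) (by linarith) (by linarith)
  obtain ⟨C2, hC2, hG2⟩ := LL_lip (c / 2) (by linarith) (by linarith)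
  rw [Metric.tendstoUniformlyOn_iff]
  intro ε hε
  have ht : Tendsto (fun N : ℕ => 1 / 2 * (Real.log N * (1 / N : ℝ)) +
      (C1 * (1 + B) / π + C2 * (1 + B) / 2) * (1 / N : ℝ)) atTop (𝓝 0) := by
    have := (logN.const_mul (1 / 2)).add (tend1 (C1 * (1 + B) / π + C2 * (1 + B) / 2))
    simpa using this
  filter_upwards [ht.eventually (gt_mem_nhds hε), eventually_ge_atTop 2,
    (tend1 π).eventually (gt_mem_nhds hc)] with N hN hN2 hNc δ hδ
  obtain ⟨h0, h3, h4⟩ := N_facts (by omega : 1 ≤ N)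
  obtain ⟨r1, r2⟩ := h1 _ ⟨δ, hδ, rfl⟩
  set w : ℂ := π / 2 - π * δ with hw
  have e1 : w.re = π / 2 - π * δ.re := by
    rw [hw, Complex.sub_re, Complex.re_ofReal_mul]
    congr 1
    have : (π / 2 : ℂ) = ((π / 2 : ℝ) : ℂ) := by push_cast; ring
    rw [this, Complex.ofReal_re]
  have hinv : 0 < (1 / N : ℝ) := by positivity
  have h5 : δ.re < 1 - 1 / N / 2 := by
    rw [abs_le, e1] at r1
    have : π * δ.re < π * (1 - 1 / N / 2) := by nlinarith [r1.1]
    exact lt_of_mul_lt_mul_left this hpi.le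
  rw [dist_comm, dist_eq_norm, ss_F1 hN2 h5, LS_ssF, ssF_LL (hKV hδ), ← hw]
  refine lt_of_le_of_lt ?_ hN
  have e2 : tp N - π * δ = w - (π * (1 / N) / 2 : ℝ) := by
    rw [hw, tp]
    push_cast
    ring
  set w' : ℂ := w - (π * (1 / N) / 2 : ℝ) with hw'
  have e3 : w'.re = w.re - π * (1 / N) / 2 := by
    rw [hw', Complex.sub_re, Complex.ofReal_re]
  have e4 : w'.im = w.im := by
    rw [hw', Complex.sub_im, Complex.ofReal_im, sub_zero]
  have r3 : |w'.re| ≤ π / 2 - c / 2 := by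
    rw [e3]
    have := abs_sub w.re (π * (1 / N) / 2)
    rw [abs_of_pos (by positivity : 0 < π * (1 / N : ℝ) / 2)] at this
    linarith
  have r4 : |w'.im| ≤ B := by rw [e4]; exact r2
  have q1 := hG1 B (1 / N) w' h3 h4 r3 r4
  have q2 := hG2 B w w' (by linarith) r3 r2 r4
  have e5 : ‖w' - w‖ = π * (1 / N) / 2 := by
    have : w' - w = ((-(π * (1 / N) / 2) : ℝ) : ℂ) := by
      rw [hw']
      push_cast
      ring
    rw [this, Complex.norm_real, Real.norm_eq_abs, abs_neg, abs_of_pos (by positivity)]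
  rw [e5] at q2
  have e6 : F1 N δ - -(LL w / π) = (((π * (1 / N) * Real.log N / 2 : ℝ) : ℂ) -
      (Gf (1 / N) w' - LL w') - (LL w' - LL w)) / π := by
    unfold F1
    rw [e2]
    push_cast
    ring
  rw [e6, norm_div]
  have e7 : ‖(π : ℂ)‖ = π := by rw [Complex.norm_real, Real.norm_eq_abs, abs_of_pos hpi]
  rw [e7, div_le_iff₀ hpi]
  have hlog : 0 ≤ Real.log N := Real.log_natCast_nonneg N
  have t1 := norm_sub_le (((π * (1 / N) * Real.log N / 2 : ℝ) : ℂ) - (Gf (1 / N) w' - LL w'))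
    (LL w' - LL w)
  have t2 := norm_sub_le (((π * (1 / N) * Real.log N / 2 : ℝ) : ℂ)) (Gf (1 / N) w' - LL w')
  rw [Complex.norm_real, Real.norm_eq_abs, abs_of_nonneg (by positivity :
    0 ≤ π * (1 / N : ℝ) * Real.log N / 2)] at t2
  have e8 : (1 / 2 * (Real.log N * (1 / N : ℝ)) +
      (C1 * (1 + B) / π + C2 * (1 + B) / 2) * (1 / N : ℝ)) * π =
      π * (1 / N : ℝ) * Real.log N / 2 + C1 * (1 + B) * (1 / N) + C2 * (1 + B) * (π * (1 / N) / 2) := by
    field_simp
    ring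
  rw [e8]
  linarith

/-- interpolation of `log R_d(ψ)` and `log S_d` -/
theorem lapl : S_LAPL :=
  ⟨rr, ss, fun _ hN => rr_diff hN, fun _ hN => ss_diff hN,
    fun _ d hN ψ hp => rr_exp hN ψ d hp, fun _ _ h1 h2 => ss_exp h1 h2,
    fun K hKD hK => rr_tend K hKD hK, fun K hKV hK => ss_tend K hKV hK⟩

end Pool.Agent.N207.VS
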