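import Pool.Agent.N207.VS.Bas

/-!
# VS/A2: averages of `LL` with the kernel `1 / (2 cosh^2 u)` along vertical lines
-/

set_option autoImplicit false

namespace Pool.Agent.N207.VS

open Filter Topology Metric MeasureTheory Set
open Pool.Agent.W711.HT Pool.Agent.N561
open scoped Real

/-- `1 / cosh^2 u` -/
noncomputable def sh (u : ℝ) : ℝ := 1 / Real.cosh u ^ 2

theorem sh_pos (u : ℝ) : 0 < sh u := by
  have := Real.cosh_pos u
  unfold sh
  positivity

theorem sh_neg (u : ℝ) : sh (-u) = sh u := by unfold sh; rw [Real.cosh_neg]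

theorem sh_cont : Continuous sh := by
  unfold sh
  apply Continuous.div continuous_const (by fun_prop)
  intro u
  have := Real.cosh_pos u
  positivity

theorem one_add_le_cosh (u : ℝ) : 1 + u ^ 2 / 2 ≤ Real.cosh u := by
  have h1 : Real.cosh u = 1 + 2 * Real.sinh (u / 2) ^ 2 := by
    have h2 := Real.cosh_two_mul (u / 2)
    rw [show 2 * (u / 2) = u by ring] at h2
    rw [h2, Real.cosh_sq]
    ring
  have h3 : |u / 2| ≤ |Real.sinh (u / 2)| := by
    rcases le_total 0 (u / 2) with h | h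
    · rw [abs_of_nonneg h]
      exact (Real.self_le_sinh_iff.2 h).trans (le_abs_self _)
    · rw [abs_of_nonpos h]
      have := Real.sinh_le_self_iff.2 h
      exact (neg_le_neg this).trans (neg_le_abs _)
  have h4 : (u / 2) ^ 2 ≤ Real.sinh (u / 2) ^ 2 := sq_le_sq.2 h3
  rw [h1]
  linarith

theorem sh_bound (u : ℝ) : sh u * (1 + |u|) ^ 2 ≤ 8 * (1 + u ^ 2)⁻¹ := by
  have h1 := one_add_le_cosh u
  have h2 : (1 + |u|) ^ 2 ≤ 2 * (1 + u ^ 2) := by
    rw [← sq_abs u]
    nlinarith [sq_nonneg (1 - |u|)]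
  have h3 : (1 + u ^ 2) ^ 2 / 4 ≤ Real.cosh u ^ 2 := by
    have h4 : (1 + u ^ 2) / 2 ≤ Real.cosh u := by linarith
    have h5 : 0 ≤ (1 + u ^ 2) / 2 := by positivity
    have := mul_self_le_mul_self h5 h4
    nlinarith
  have h6 := Real.cosh_pos u
  unfold sh
  rw [div_mul_eq_mul_div, one_mul, div_le_iff₀ (by positivity)]
  have h7 : 0 < 1 + u ^ 2 := by positivity
  calc (1 + |u|) ^ 2 ≤ 2 * (1 + u ^ 2) := h2
    _ = 8 * (1 + u ^ 2)⁻¹ * ((1 + u ^ 2) ^ 2 / 4) := by field_simp; norm_num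
    _ ≤ 8 * (1 + u ^ 2)⁻¹ * Real.cosh u ^ 2 := mul_le_mul_of_nonneg_left h3 (by positivity)

theorem int_sh2 : Integrable (fun u : ℝ => sh u * (1 + |u|) ^ 2) := by
  refine (integrable_inv_one_add_sq.const_mul 8).mono' ?_ ?_
  · exact (sh_cont.mul (by fun_prop)).aestronglyMeasurable
  · refine Eventually.of_forall fun u => ?_
    rw [Real.norm_eq_abs, abs_of_nonneg (mul_nonneg (sh_pos u).le (by positivity))]
    exact sh_bound u

/-- domination -/
theorem dom {f : ℝ → ℂ} (hf : Continuous f) (C : ℝ) (h : ∀ u, ‖f u‖ ≤ C * (1 + |u|) ^ 2) :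
    Integrable (fun u : ℝ => (sh u : ℂ) * f u) := by
  refine (int_sh2.const_mul C).mono' ?_ ?_
  · exact ((Complex.continuous_ofReal.comp sh_cont).mul hf).aestronglyMeasurable
  · refine Eventually.of_forall fun u => ?_
    rw [norm_mul, Complex.norm_real, Real.norm_eq_abs, abs_of_pos (sh_pos u)]
    have := mul_le_mul_of_nonneg_left (h u) (sh_pos u).le
    linarith

theorem int_sh : Integrable sh := by
  refine int_sh2.mono' sh_cont.aestronglyMeasurable (Eventually.of_forall fun u => ?_)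
  rw [Real.norm_eq_abs, abs_of_pos (sh_pos u)]
  have h1 := sh_pos u
  have h2 : 1 ≤ (1 + |u|) ^ 2 := by nlinarith [abs_nonneg u]
  nlinarith

theorem tanh_deriv (u : ℝ) : HasDerivAt (fun u => Real.sinh u / Real.cosh u) (sh u) u := by
  have h := Real.cosh_pos u
  refine ((Real.hasDerivAt_sinh u).div (Real.hasDerivAt_cosh u) h.ne').congr_deriv ?_
  unfold sh
  have := Real.cosh_sq_sub_sinh_sq u
  congr 1
  linarith

theorem tanh_top : Tendsto (fun u => Real.sinh u / Real.cosh u) atTop (𝓝 1) := by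
  have h1 : ∀ u : ℝ, Real.sinh u / Real.cosh u = 1 - Real.exp (-u) / Real.cosh u := by
    intro u
    have h := Real.cosh_pos u
    rw [eq_sub_iff_add_eq, ← add_div, div_eq_one_iff_eq h.ne', ← Real.cosh_sub_sinh]
    ring
  simp_rw [h1]
  have h2 : Tendsto (fun u : ℝ => Real.exp (-u) / Real.cosh u) atTop (𝓝 0) := by
    refine squeeze_zero (fun u => ?_) (fun u => ?_) (Real.tendsto_exp_neg_atTop_nhds_zero)
    · have := Real.cosh_pos u
      positivity
    · exact div_le_self (Real.exp_pos _).le (Real.one_le_cosh u)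
  simpa using tendsto_const_nhds.sub h2

theorem tanh_bot : Tendsto (fun u => Real.sinh u / Real.cosh u) atBot (𝓝 (-1)) := by
  have h := (tanh_top.comp tendsto_neg_atBot_atTop).neg
  refine h.congr fun u => ?_
  simp only [Function.comp]
  rw [Real.sinh_neg, Real.cosh_neg, neg_div, neg_neg]

theorem integral_sh : ∫ u, sh u = 2 := by
  rw [integral_of_hasDerivAt_of_tendsto tanh_deriv int_sh tanh_bot tanh_top]
  norm_num

theorem integral_shc : ∫ u, (sh u : ℂ) = 2 := by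
  rw [integral_complex_ofReal, integral_sh]
  norm_num

theorem int_shc : Integrable (fun u => (sh u : ℂ)) := int_sh.ofReal

/-- the average -/
noncomputable def Gf (a : ℝ) (w : ℂ) : ℂ :=
  1 / 2 * ∫ u : ℝ, (sh u : ℂ) * LL (w + (a * u : ℝ) * Complex.I)

theorem vert_re (w : ℂ) (r : ℝ) : (w + (r : ℂ) * Complex.I).re = w.re := by simp

theorem vert_im (w : ℂ) (r : ℝ) : (w + (r : ℂ) * Complex.I).im = w.im + r := by simp

theorem vert_mem {w : ℂ} (hw : w ∈ W) (r : ℝ) : w + (r : ℂ) * Complex.I ∈ W := by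
  show |(w + (r : ℂ) * Complex.I).re| < π / 2
  rw [vert_re]
  exact hw

theorem exists_c {w : ℂ} (hw : w ∈ W) : ∃ c : ℝ, 0 < c ∧ c ≤ π / 2 ∧ |w.re| ≤ π / 2 - 2 * c := by
  have h : |w.re| < π / 2 := hw
  refine ⟨(π / 2 - |w.re|) / 2, by linarith, ?_, by linarith⟩
  have := abs_nonneg w.re
  linarith [Real.pi_pos]

theorem LL_vcont {w : ℂ} (hw : w ∈ W) (a : ℝ) :
    Continuous fun u : ℝ => LL (w + (a * u : ℝ) * Complex.I) := by
  rw [← continuousOn_univ]
  exact LL_cont.comp (f := fun u : ℝ => w + (a * u : ℝ) * Complex.I) (by fun_prop)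
    (fun u _ => vert_mem hw _)

theorem g_vcont {w : ℂ} (hw : w ∈ W) (a : ℝ) :
    Continuous fun u : ℝ => g (w + (a * u : ℝ) * Complex.I) := by
  rw [← continuousOn_univ]
  exact g_cont.comp (f := fun u : ℝ => w + (a * u : ℝ) * Complex.I) (by fun_prop)
    (fun u _ => vert_mem hw _)

theorem abs_im_le (y a u : ℝ) (ha : 0 ≤ a) (ha1 : a ≤ 1) : |y + a * u| ≤ |y| + |u| := by
  have h1 := abs_add_le y (a * u)
  rw [abs_mul, abs_of_nonneg ha] at h1
  nlinarith [abs_nonneg u]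

theorem LL_vbound {w : ℂ} (hw : w ∈ W) (a : ℝ) (ha : 0 ≤ a) (ha1 : a ≤ 1) :
    ∃ C : ℝ, ∀ u : ℝ, ‖LL (w + (a * u : ℝ) * Complex.I)‖ ≤ C * (1 + |u|) ^ 2 := by
  obtain ⟨c, hc, hc2, h⟩ := exists_c hw
  obtain ⟨C, hC, hb⟩ := LL_bound c hc hc2
  refine ⟨C * (1 + |w.im|) ^ 2, fun u => ?_⟩
  have h1 := hb (w + (a * u : ℝ) * Complex.I) (by rw [vert_re]; linarith)
  rw [vert_im] at h1
  refine h1.trans ?_
  have h2 := abs_im_le w.im a u ha ha1
  have h3 := abs_nonneg u
  have h4 := abs_nonneg w.im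
  have h5 : 1 + |w.im + a * u| ≤ (1 + |w.im|) * (1 + |u|) := by nlinarith
  have h6 : (1 + |w.im + a * u|) ^ 2 ≤ ((1 + |w.im|) * (1 + |u|)) ^ 2 :=
    pow_le_pow_left₀ (by positivity) h5 2
  calc C * (1 + |w.im + a * u|) ^ 2 ≤ C * ((1 + |w.im|) * (1 + |u|)) ^ 2 :=
        mul_le_mul_of_nonneg_left h6 hC.le
    _ = _ := by ring

theorem int_LL {w : ℂ} (hw : w ∈ W) (a : ℝ) (ha : 0 ≤ a) (ha1 : a ≤ 1) :
    Integrable fun u : ℝ => (sh u : ℂ) * LL (w + (a * u : ℝ) * Complex.I) := by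
  obtain ⟨C, hC⟩ := LL_vbound hw a ha ha1
  exact dom (LL_vcont hw a) C hC

theorem Gf_deriv (a : ℝ) (ha : 0 ≤ a) (ha1 : a ≤ 1) {w : ℂ} (hw : w ∈ W) : HasDerivAt (Gf a)
    (1 / 2 * ∫ u : ℝ, (sh u : ℂ) * g (w + (a * u : ℝ) * Complex.I)) w := by
  obtain ⟨c, hc, hc2, h⟩ := exists_c hw
  obtain ⟨C, hC, hb⟩ := g_bound c hc hc2
  have hball : ∀ x ∈ ball w c, |x.re| ≤ π / 2 - c ∧ |x.im| ≤ |w.im| + c := by
    intro x hx
    rw [mem_ball, dist_eq_norm] at hx
    have h1 := (Complex.abs_re_le_norm (x - w)).trans hx.le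
    have h2 := (Complex.abs_im_le_norm (x - w)).trans hx.le
    rw [Complex.sub_re] at h1
    rw [Complex.sub_im] at h2
    have h3 := abs_add_le (x.re - w.re) w.re
    have h4 := abs_add_le (x.im - w.im) w.im
    rw [sub_add_cancel] at h3 h4
    constructor <;> linarith
  have hballW : ∀ x ∈ ball w c, x ∈ W := fun x hx =>
    lt_of_le_of_lt (hball x hx).1 (by linarith)
  have key := hasDerivAt_integral_of_dominated_loc_of_deriv_le (𝕜 := ℂ) (μ := volume)
    (F := fun (w : ℂ) (u : ℝ) => (sh u : ℂ) * LL (w + (a * u : ℝ) * Complex.I))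
    (F' := fun (w : ℂ) (u : ℝ) => (sh u : ℂ) * g (w + (a * u : ℝ) * Complex.I))
    (x₀ := w) (s := ball w c)
    (bound := fun u => (C * (1 + |w.im| + c)) * (sh u * (1 + |u|) ^ 2))
    (ball_mem_nhds w hc) ?_ (int_LL hw a ha ha1) ?_ ?_ (int_sh2.const_mul _) ?_
  · exact key.2.const_mul (1 / 2)
  · filter_upwards [ball_mem_nhds w hc] with x hx
    exact ((Complex.continuous_ofReal.comp sh_cont).mul
      (LL_vcont (hballW x hx) a)).aestronglyMeasurable
  · exact ((Complex.continuous_ofReal.comp sh_cont).mul (g_vcont hw a)).aestronglyMeasurable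
  · refine Eventually.of_forall fun u x hx => ?_
    rw [norm_mul, Complex.norm_real, Real.norm_eq_abs, abs_of_pos (sh_pos u)]
    have h1 := hb (x + (a * u : ℝ) * Complex.I) (by rw [vert_re]; exact (hball x hx).1)
    rw [vert_im] at h1
    have h2 := abs_im_le x.im a u ha ha1
    have h3 := (hball x hx).2
    have h4 := abs_nonneg u
    have h5 := abs_nonneg w.im
    have h6 : 1 + |x.im + a * u| ≤ (1 + |w.im| + c) * (1 + |u|) ^ 2 := by
      nlinarith [mul_nonneg h5 h4, mul_nonneg hc.le h4, mul_nonneg h5 (mul_nonneg h4 h4),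
        mul_nonneg hc.le (mul_nonneg h4 h4), mul_nonneg h4 h4]
    have h7 : ‖g (x + (a * u : ℝ) * Complex.I)‖ ≤ C * ((1 + |w.im| + c) * (1 + |u|) ^ 2) :=
      h1.trans (mul_le_mul_of_nonneg_left h6 hC.le)
    have := mul_le_mul_of_nonneg_left h7 (sh_pos u).le
    calc _ ≤ _ := this
      _ = _ := by ring
  · refine Eventually.of_forall fun u x hx => ?_
    have h1 : HasDerivAt (fun x : ℂ => x + (a * u : ℝ) * Complex.I) 1 x :=
      (hasDerivAt_id x).add_const _
    have h2 := (LL_deriv (vert_mem (hballW x hx) (a * u))).comp x h1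
    simp only [mul_one] at h2
    exact h2.const_mul _

theorem Gf_neg (a : ℝ) (w : ℂ) : Gf a (-w) = -Gf a w := by
  unfold Gf
  rw [← integral_neg_eq_self]
  have : (fun u : ℝ => (sh (-u) : ℂ) * LL (-w + (a * -u : ℝ) * Complex.I)) =
      fun u : ℝ => -((sh u : ℂ) * LL (w + (a * u : ℝ) * Complex.I)) := by
    funext u
    rw [sh_neg]
    have : -w + ((a * -u : ℝ) : ℂ) * Complex.I = -(w + ((a * u : ℝ) : ℂ) * Complex.I) := by
      push_cast
      ring
    rw [this, LL_neg]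
    ring
  rw [this, integral_neg]
  ring

/-- rate of convergence -/
theorem Gf_close (c : ℝ) (hc : 0 < c) (hc2 : c ≤ π / 2) : ∃ C : ℝ, 0 < C ∧ ∀ (B a : ℝ) (w : ℂ),
    0 ≤ a → a ≤ 1 → |w.re| ≤ π / 2 - c → |w.im| ≤ B → ‖Gf a w - LL w‖ ≤ C * (1 + B) * a := by
  obtain ⟨C, hC, h⟩ := LL_lip c hc hc2
  set I2 : ℝ := ∫ u : ℝ, sh u * (1 + |u|) ^ 2 with hI2
  have hI0 : 0 ≤ I2 := integral_nonneg fun u => mul_nonneg (sh_pos u).le (by positivity)
  refine ⟨C * (I2 + 1), by positivity, fun B a w ha ha1 hw hB => ?_⟩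
  have hwW : w ∈ W := lt_of_le_of_lt hw (by linarith)
  have hB0 : 0 ≤ B := (abs_nonneg _).trans hB
  have e1 : Gf a w - LL w =
      1 / 2 * ∫ u : ℝ, (sh u : ℂ) * (LL (w + (a * u : ℝ) * Complex.I) - LL w) := by
    have h1 : (fun u : ℝ => (sh u : ℂ) * (LL (w + (a * u : ℝ) * Complex.I) - LL w)) =
        fun u : ℝ => (sh u : ℂ) * LL (w + (a * u : ℝ) * Complex.I) - (sh u : ℂ) * LL w := by
      funext u; ring
    rw [h1, integral_sub (int_LL hwW a ha ha1) (int_shc.mul_const _),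
      integral_mul_const, integral_shc]
    unfold Gf
    ring
  rw [e1, norm_mul]
  have e2 : ‖(1 / 2 : ℂ)‖ = 1 / 2 := by norm_num
  rw [e2]
  have h2 : ‖∫ u : ℝ, (sh u : ℂ) * (LL (w + (a * u : ℝ) * Complex.I) - LL w)‖ ≤
      ∫ u : ℝ, (C * (1 + B) * a) * (sh u * (1 + |u|) ^ 2) := by
    refine norm_integral_le_of_norm_le (int_sh2.const_mul _) (Eventually.of_forall fun u => ?_)
    rw [norm_mul, Complex.norm_real, Real.norm_eq_abs, abs_of_pos (sh_pos u)]
    have h3 := h (B + |u|) w (w + (a * u : ℝ) * Complex.I) hw (by rw [vert_re]; exact hw)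
      (by linarith [abs_nonneg u]) (by
        rw [vert_im]
        have := abs_im_le w.im a u ha ha1
        linarith)
    have h4 : ‖w + (a * u : ℝ) * Complex.I - w‖ = a * |u| := by
      rw [add_sub_cancel_left, norm_mul, Complex.norm_I, mul_one, Complex.norm_real,
        Real.norm_eq_abs, abs_mul, abs_of_nonneg ha]
    rw [h4] at h3
    have h5 := abs_nonneg u
    have h6 : C * (1 + (B + |u|)) * (a * |u|) ≤ (C * (1 + B) * a) * (1 + |u|) ^ 2 := by
      have h7 : (1 + (B + |u|)) * |u| ≤ (1 + B) * (1 + |u|) ^ 2 := by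
        nlinarith [mul_nonneg hB0 h5, mul_nonneg hB0 (mul_nonneg h5 h5), mul_nonneg h5 h5]
      have h8 := mul_le_mul_of_nonneg_left h7 (mul_nonneg hC.le ha)
      calc _ = C * a * ((1 + (B + |u|)) * |u|) := by ring
        _ ≤ _ := h8
        _ = _ := by ring
    have h9 := mul_le_mul_of_nonneg_left (h3.trans h6) (sh_pos u).le
    calc _ ≤ _ := h9
      _ = _ := by ring
  rw [integral_const_mul, ← hI2] at h2
  have h10 : 0 ≤ C * (1 + B) * a := by positivity
  nlinarith [mul_nonneg h10 hI0]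

end Pool.Agent.N207.VS
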