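import Pool.Agent.N561.A.Stm
import Pool.Agent.W398.HT.RRD2

/-!
# VS/A2: the function `log (2 cos w)` on the strip `|Re w| < π / 2` and its primitive
-/

set_option autoImplicit false

namespace Pool.Agent.N207.VS

open Filter Topology Metric MeasureTheory Set
open Pool.Agent.W711.HT Pool.Agent.N561
open scoped Real

/-- `log (2 cos w)` -/
noncomputable def g (w : ℂ) : ℂ := Complex.log (2 * Complex.cos w)

/-- the strip -/
def W : Set ℂ := {w | |w.re| < π / 2}

theorem isOpen_W : IsOpen W := isOpen_lt (by fun_prop) continuous_const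

theorem cos_re (w : ℂ) : (2 * Complex.cos w).re = 2 * (Real.cos w.re * Real.cosh w.im) := by
  rw [Complex.mul_re, Complex.cos_eq w]
  have e : Complex.cos w.re * Complex.cosh w.im - Complex.sin w.re * Complex.sinh w.im * Complex.I =
      ((Real.cos w.re * Real.cosh w.im : ℝ) : ℂ) + ((-(Real.sin w.re * Real.sinh w.im) : ℝ) : ℂ) *
        Complex.I := by
    push_cast
    ring
  rw [e]
  simp
  left
  exact Complex.cos_ofReal_re _

theorem cos_re_pos {w : ℂ} (hw : w ∈ W) : 0 < (2 * Complex.cos w).re := by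
  rw [cos_re]
  have h1 : 0 < Real.cos w.re := Real.cos_pos_of_mem_Ioo (abs_lt.1 hw)
  have h2 := Real.cosh_pos w.im
  positivity

theorem slit {w : ℂ} (hw : w ∈ W) : 2 * Complex.cos w ∈ Complex.slitPlane :=
  Or.inl (cos_re_pos hw)

theorem cos_ne {w : ℂ} (hw : w ∈ W) : 2 * Complex.cos w ≠ 0 :=
  Complex.slitPlane_ne_zero (slit hw)

theorem cos_ne' {w : ℂ} (hw : w ∈ W) : Complex.cos w ≠ 0 := fun h => cos_ne hw (by rw [h, mul_zero])

theorem exp_g {w : ℂ} (hw : w ∈ W) : Complex.exp (g w) = 2 * Complex.cos w :=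
  Complex.exp_log (cos_ne hw)

theorem g_neg (w : ℂ) : g (-w) = g w := by unfold g; rw [Complex.cos_neg]

theorem mul_mem {w : ℂ} (hw : w ∈ W) {t : ℝ} (ht : t ∈ Icc (0:ℝ) 1) : (t : ℂ) * w ∈ W := by
  have h1 : ((t : ℂ) * w).re = t * w.re := by simp
  show |((t : ℂ) * w).re| < π / 2
  rw [h1, abs_mul, abs_of_nonneg ht.1]
  have h2 : |w.re| < π / 2 := hw
  nlinarith [ht.1, ht.2, abs_nonneg w.re]

theorem neg_mem {w : ℂ} (hw : w ∈ W) : -w ∈ W := by
  show |(-w).re| < π / 2
  rw [Complex.neg_re, abs_neg]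
  exact hw

theorem g_deriv {w : ℂ} (hw : w ∈ W) : HasDerivAt g (-(Complex.sin w / Complex.cos w)) w := by
  have h1 : HasDerivAt (fun w => 2 * Complex.cos w) (2 * (-Complex.sin w)) w :=
    (Complex.hasDerivAt_cos w).const_mul 2
  refine (h1.clog (slit hw)).congr_deriv ?_
  have := cos_ne' hw
  field_simp

theorem g_cont : ContinuousOn g W := fun _ hw => (g_deriv hw).continuousAt.continuousWithinAt

/-- the integral in `LL` -/
noncomputable def J (w : ℂ) : ℂ := ∫ t in (0:ℝ)..1, g (t * w)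

theorem LL_eq (w : ℂ) : LL w = w * J w := rfl

theorem J_deriv {w : ℂ} (hw : w ∈ W) : HasDerivAt J
    (∫ t in (0:ℝ)..1, -(Complex.sin (t * w) / Complex.cos (t * w)) * t) w := by
  have h1 := Pool.Agent.W398.HT.par W isOpen_W (fun (w : ℂ) (t : ℝ) => g (t * w))
    (fun w t => (-(Complex.sin (t * w) / Complex.cos (t * w)) * t) • (1 : ℂ →L[ℂ] ℂ)) (by
      intro x hx t ht
      have h2 : HasDerivAt (fun x : ℂ => (t : ℂ) * x) (t : ℂ) x := by
        simpa using (hasDerivAt_id x).const_mul (t : ℂ)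
      have := ((g_deriv (mul_mem hx ht)).comp x h2).hasFDerivAt
      refine this.congr_fderiv ?_
      ext
      simp) (by
      refine g_cont.comp (f := fun p : ℂ × ℝ => (p.2 : ℂ) * p.1) (by fun_prop) ?_
      rintro ⟨q, t⟩ ⟨hq, ht⟩
      exact mul_mem hq ht) (by
      apply ContinuousOn.fun_smul
      · apply ContinuousOn.mul _ (by fun_prop)
        apply ContinuousOn.neg
        apply ContinuousOn.div (by fun_prop) (by fun_prop)
        rintro ⟨q, t⟩ ⟨hq, ht⟩
        exact cos_ne' (mul_mem hq ht)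
      · exact continuousOn_const) w hw
  refine h1.hasDerivAt.congr_deriv ?_
  rw [ContinuousLinearMap.intervalIntegral_apply]
  · simp
  · apply ContinuousOn.intervalIntegrable
    rw [uIcc_of_le zero_le_one]
    apply ContinuousOn.fun_smul _ continuousOn_const
    apply ContinuousOn.mul _ (by fun_prop)
    apply ContinuousOn.neg
    apply ContinuousOn.div (by fun_prop) (by fun_prop)
    intro t ht
    exact cos_ne' (mul_mem hw ht)

theorem LL_deriv {w : ℂ} (hw : w ∈ W) : HasDerivAt LL (g w) w := by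
  have h1 : HasDerivAt (fun w => w * J w) (1 * J w + w *
      (∫ t in (0:ℝ)..1, -(Complex.sin (t * w) / Complex.cos (t * w)) * t)) w :=
    (hasDerivAt_id w).mul (J_deriv hw)
  have c1 : ContinuousOn (fun t : ℝ => g (t * w)) (uIcc 0 1) := by
    rw [uIcc_of_le zero_le_one]
    exact g_cont.comp (f := fun t : ℝ => (t : ℂ) * w) (by fun_prop) (fun t ht => mul_mem hw ht)
  have c2 : ContinuousOn (fun t : ℝ => -(Complex.sin (t * w) / Complex.cos (t * w)) * t)
      (uIcc 0 1) := by
    rw [uIcc_of_le zero_le_one]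
    apply ContinuousOn.mul _ (by fun_prop)
    apply ContinuousOn.neg
    apply ContinuousOn.div (by fun_prop) (by fun_prop)
    intro t ht
    exact cos_ne' (mul_mem hw ht)
  have hd : ∀ t ∈ uIcc (0 : ℝ) 1, HasDerivAt (fun t : ℝ => (t : ℂ) * g (t * w))
      (g (t * w) + w * (-(Complex.sin (t * w) / Complex.cos (t * w)) * t)) t := by
    intro t ht
    rw [uIcc_of_le zero_le_one] at ht
    have h1 : HasDerivAt (fun t : ℝ => (t : ℂ)) 1 t := Complex.ofRealCLM.hasDerivAt
    have h2 : HasDerivAt (fun t : ℝ => (t : ℂ) * w) (1 * w) t := h1.mul_const w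
    have h3 := (g_deriv (mul_mem hw ht)).comp t h2
    refine (h1.mul h3).congr_deriv ?_
    simp only [Function.comp]
    ring
  have hint := intervalIntegral.integral_eq_sub_of_hasDerivAt hd
    (c1.intervalIntegrable.add (c2.intervalIntegrable.const_mul w))
  rw [intervalIntegral.integral_add c1.intervalIntegrable (c2.intervalIntegrable.const_mul w),
    intervalIntegral.integral_const_mul] at hint
  have e : 1 * J w + w * (∫ t in (0:ℝ)..1, -(Complex.sin (t * w) / Complex.cos (t * w)) * t) =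
      g w := by
    rw [one_mul]
    unfold J
    rw [hint]
    simp
  rw [e] at h1
  exact h1

theorem LL_cont : ContinuousOn LL W := fun _ hw => (LL_deriv hw).continuousAt.continuousWithinAt

theorem LL_neg (w : ℂ) : LL (-w) = -LL w := by
  rw [LL_eq, LL_eq]
  have : J (-w) = J w := by
    unfold J
    congr 1
    funext t
    rw [mul_neg, g_neg]
  rw [this]
  ring

theorem LL_zero : LL 0 = 0 := by rw [LL_eq, zero_mul]

/-! ### growth -/

theorem norm_cos_le (w : ℂ) : ‖Complex.cos w‖ ≤ Real.exp |w.im| := by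
  have h1 : ‖Complex.exp (w * Complex.I)‖ ≤ Real.exp |w.im| := by
    rw [Complex.norm_exp]
    apply Real.exp_le_exp.2
    have : (w * Complex.I).re = -w.im := by simp
    rw [this]
    exact neg_le_abs _
  have h2 : ‖Complex.exp (-w * Complex.I)‖ ≤ Real.exp |w.im| := by
    rw [Complex.norm_exp]
    apply Real.exp_le_exp.2
    have : (-w * Complex.I).re = w.im := by simp
    rw [this]
    exact le_abs_self _
  rw [Complex.cos, norm_div]
  have h3 := norm_add_le (Complex.exp (w * Complex.I)) (Complex.exp (-w * Complex.I))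
  have : ‖(2:ℂ)‖ = 2 := by simp
  rw [this]
  linarith

theorem g_bound (c : ℝ) (hc : 0 < c) (hc2 : c ≤ π / 2) : ∃ C : ℝ, 0 < C ∧ ∀ w : ℂ,
    |w.re| ≤ π / 2 - c → ‖g w‖ ≤ C * (1 + |w.im|) := by
  refine ⟨Real.log 2 + |Real.log (2 * Real.sin c)| + π + 1, by positivity, fun w hw => ?_⟩
  have hsc : 0 < Real.sin c := Real.sin_pos_of_pos_of_lt_pi hc (by linarith [Real.pi_pos])
  have hwW : w ∈ W := lt_of_le_of_lt hw (by linarith)
  have h1 : ‖g w‖ ≤ |Real.log ‖2 * Complex.cos w‖| + π := by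
    unfold g
    have h2 := Complex.norm_le_abs_re_add_abs_im (Complex.log (2 * Complex.cos w))
    rw [Complex.log_re, Complex.log_im] at h2
    have h3 := Complex.abs_arg_le_pi (2 * Complex.cos w)
    linarith
  have h4 : ‖2 * Complex.cos w‖ ≤ 2 * Real.exp |w.im| := by
    rw [norm_mul]
    have : ‖(2:ℂ)‖ = 2 := by simp
    rw [this]
    have := norm_cos_le w
    linarith
  have h5 : 2 * Real.sin c ≤ ‖2 * Complex.cos w‖ := by
    refine le_trans ?_ (Complex.re_le_norm _)
    rw [cos_re]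
    have h6 : Real.sin c ≤ Real.cos w.re := by
      rw [← Real.cos_pi_div_two_sub, ← Real.cos_abs w.re]
      apply Real.cos_le_cos_of_nonneg_of_le_pi (abs_nonneg _) _ hw
      linarith [Real.pi_pos]
    have h7 := Real.one_le_cosh w.im
    nlinarith
  have hn : 0 < ‖2 * Complex.cos w‖ := norm_pos_iff.2 (cos_ne hwW)
  have h8 : Real.log ‖2 * Complex.cos w‖ ≤ Real.log 2 + |w.im| := by
    have := Real.log_le_log hn h4
    rwa [Real.log_mul (by norm_num) (Real.exp_ne_zero _), Real.log_exp] at this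
  have h9 : Real.log (2 * Real.sin c) ≤ Real.log ‖2 * Complex.cos w‖ :=
    Real.log_le_log (by positivity) h5
  have h10 : |Real.log ‖2 * Complex.cos w‖| ≤ Real.log 2 + |w.im| + |Real.log (2 * Real.sin c)| := by
    rw [abs_le]
    have h11 := neg_abs_le (Real.log (2 * Real.sin c))
    have h12 := abs_nonneg (Real.log (2 * Real.sin c))
    have h13 := abs_nonneg w.im
    have h14 : 0 < Real.log 2 := Real.log_pos (by norm_num)
    constructor <;> linarith
  have h12 := abs_nonneg (Real.log (2 * Real.sin c))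
  have h13 := abs_nonneg w.im
  have h14 : 0 < Real.log 2 := Real.log_pos (by norm_num)
  have h15 := Real.pi_pos
  nlinarith [mul_nonneg h14.le h13, mul_nonneg h12 h13, mul_nonneg h15.le h13]

theorem LL_bound (c : ℝ) (hc : 0 < c) (hc2 : c ≤ π / 2) : ∃ C : ℝ, 0 < C ∧ ∀ w : ℂ,
    |w.re| ≤ π / 2 - c → ‖LL w‖ ≤ C * (1 + |w.im|) ^ 2 := by
  obtain ⟨C, hC, h⟩ := g_bound c hc hc2
  refine ⟨C * (π / 2 + 1), by positivity, fun w hw => ?_⟩
  have h1 : ‖J w‖ ≤ C * (1 + |w.im|) := by
    have := intervalIntegral.norm_integral_le_of_norm_le_const (a := 0) (b := 1)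
      (f := fun t : ℝ => g (t * w)) (C := C * (1 + |w.im|)) (by
        intro t ht
        rw [uIoc_of_le zero_le_one] at ht
        have e1 : ((t : ℂ) * w).re = t * w.re := by simp
        have e2 : ((t : ℂ) * w).im = t * w.im := by simp
        have h2 : |((t : ℂ) * w).re| ≤ π / 2 - c := by
          rw [e1, abs_mul, abs_of_pos ht.1]
          nlinarith [ht.2, abs_nonneg w.re]
        refine (h _ h2).trans ?_
        rw [e2, abs_mul, abs_of_pos ht.1]
        have : t * |w.im| ≤ |w.im| := by nlinarith [ht.2, abs_nonneg w.im]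
        exact mul_le_mul_of_nonneg_left (by linarith) hC.le)
    simpa [J] using this
  have h2 : ‖w‖ ≤ π / 2 + |w.im| := by
    have := Complex.norm_le_abs_re_add_abs_im w
    linarith
  rw [LL_eq, norm_mul]
  have h3 := abs_nonneg w.im
  have h4 : ‖w‖ ≤ (π / 2 + 1) * (1 + |w.im|) := by nlinarith [Real.pi_pos]
  calc ‖w‖ * ‖J w‖ ≤ ((π / 2 + 1) * (1 + |w.im|)) * (C * (1 + |w.im|)) :=
        mul_le_mul h4 h1 (norm_nonneg _) (by positivity)
    _ = _ := by ring

/-- Lipschitz bound on rectangles -/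
theorem LL_lip (c : ℝ) (hc : 0 < c) (hc2 : c ≤ π / 2) : ∃ C : ℝ, 0 < C ∧ ∀ (B : ℝ) (w w' : ℂ),
    |w.re| ≤ π / 2 - c → |w'.re| ≤ π / 2 - c → |w.im| ≤ B → |w'.im| ≤ B →
    ‖LL w' - LL w‖ ≤ C * (1 + B) * ‖w' - w‖ := by
  obtain ⟨C, hC, h⟩ := g_bound c hc hc2
  refine ⟨C, hC, fun B w w' h1 h2 h3 h4 => ?_⟩
  have hconv : Convex ℝ {z : ℂ | |z.re| ≤ π / 2 - c ∧ |z.im| ≤ B} := by
    have e : {z : ℂ | |z.re| ≤ π / 2 - c ∧ |z.im| ≤ B} =
        (Complex.reCLM ⁻¹' Icc (-(π / 2 - c)) (π / 2 - c)) ∩ (Complex.imCLM ⁻¹' Icc (-B) B) := by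
      ext z
      simp [abs_le]
    rw [e]
    exact ((convex_Icc _ _).linear_preimage Complex.reCLM.toLinearMap).inter
      ((convex_Icc _ _).linear_preimage Complex.imCLM.toLinearMap)
  refine hconv.norm_image_sub_le_of_norm_hasDerivWithin_le (f := LL) (f' := g) ?_ ?_ ⟨h1, h3⟩
    ⟨h2, h4⟩
  · intro z hz
    exact (LL_deriv (show z ∈ W from lt_of_le_of_lt hz.1 (by linarith))).hasDerivWithinAt
  · intro z hz
    refine (h z hz.1).trans ?_
    exact mul_le_mul_of_nonneg_left (by linarith [hz.2]) hC.le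

end Pool.Agent.N207.VS
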