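import Pool.Agent.N207.VS.Av

/-!
# VS/A2: the difference equation of the averages, by shifting the line of integration
-/

set_option autoImplicit false

namespace Pool.Agent.N207.VS

open Filter Topology Metric MeasureTheory Set
open Pool.Agent.W711.HT Pool.Agent.N561
open scoped Real

theorem sinh_parts (v : ℂ) : Complex.sinh v =
    ((Real.sinh v.re * Real.cos v.im : ℝ) : ℂ) +
      ((Real.cosh v.re * Real.sin v.im : ℝ) : ℂ) * Complex.I := by
  conv_lhs => rw [← Complex.re_add_im v]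
  rw [Complex.sinh_add, Complex.sinh_mul_I, Complex.cosh_mul_I]
  push_cast
  ring

theorem sinh_normSq (v : ℂ) : ‖Complex.sinh v‖ ^ 2 = Real.sinh v.re ^ 2 + Real.sin v.im ^ 2 := by
  rw [← Complex.normSq_eq_norm_sq, sinh_parts, Complex.normSq_add_mul_I]
  have h1 := Real.cosh_sq v.re
  have h2 := Real.sin_sq_add_cos_sq v.im
  have : (Real.sinh v.re * Real.cos v.im) ^ 2 + (Real.cosh v.re * Real.sin v.im) ^ 2 =
      Real.sinh v.re ^ 2 * (Real.cos v.im ^ 2) + Real.cosh v.re ^ 2 * Real.sin v.im ^ 2 := by ring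
  rw [this, h1]
  have h3 : Real.cos v.im ^ 2 = 1 - Real.sin v.im ^ 2 := by linarith
  rw [h3]
  ring

theorem sinh_ne {v : ℂ} (hv : |v.im| ≤ π / 2) (h0 : v ≠ 0) : Complex.sinh v ≠ 0 := by
  intro h
  have h1 := sinh_normSq v
  rw [h, norm_zero] at h1
  have h2 : Real.sinh v.re ^ 2 = 0 := by nlinarith [sq_nonneg (Real.sinh v.re), sq_nonneg (Real.sin v.im)]
  have h3 : Real.sin v.im ^ 2 = 0 := by nlinarith [sq_nonneg (Real.sinh v.re), sq_nonneg (Real.sin v.im)]
  have h4 : v.re = 0 := Real.sinh_eq_zero.1 (pow_eq_zero_iff (two_ne_zero) |>.1 h2)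
  have h5 : Real.sin v.im = 0 := pow_eq_zero_iff (two_ne_zero) |>.1 h3
  rw [abs_le] at hv
  have h6 : v.im = 0 :=
    (Real.sin_eq_zero_iff_of_lt_of_lt (by linarith [Real.pi_pos]) (by linarith [Real.pi_pos])).1 h5
  exact h0 (Complex.ext h4 h6)

theorem sinh_low (v : ℂ) : v.re ^ 4 / 4 ≤ ‖Complex.sinh v‖ ^ 2 := by
  rw [sinh_normSq, Real.sinh_sq]
  have h1 := one_add_le_cosh v.re
  have h2 := mul_self_le_mul_self (by positivity) h1
  nlinarith [sq_nonneg (Real.sin v.im), sq_nonneg v.re]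

/-- `sinh v / v` -/
noncomputable def s1 : ℂ → ℂ := dslope Complex.sinh 0

theorem s1_diff : Differentiable ℂ s1 := by
  rw [← differentiableOn_univ]
  exact (Complex.differentiableOn_dslope univ_mem).2 Complex.differentiable_sinh.differentiableOn

theorem s1_eq (v : ℂ) : v * s1 v = Complex.sinh v := by
  have := sub_smul_dslope Complex.sinh 0 v
  simpa [s1] using this

theorem s1_ne {v : ℂ} (hv : |v.im| ≤ π / 2) : s1 v ≠ 0 := by
  by_cases h0 : v = 0
  · rw [h0]
    unfold s1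
    rw [dslope_same, Complex.deriv_sinh, Complex.cosh_zero]
    exact one_ne_zero
  · intro h
    have := s1_eq v
    rw [h, mul_zero] at this
    exact sinh_ne hv h0 this.symm

section

variable (a : ℝ) (w : ℂ)

/-- the function along the vertical line -/
noncomputable def ff (v : ℂ) : ℂ := LL (w + a * v * Complex.I)

/-- the remainder -/
noncomputable def KK (v : ℂ) : ℂ := ff a w v - ff a w 0 - v * (g w * (a * Complex.I))

/-- the quotient -/
noncomputable def kq (v : ℂ) : ℂ := dslope (dslope (ff a w) 0) 0 v / s1 v ^ 2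

/-- the domain -/
def S : Set ℂ := {v | w + a * v * Complex.I ∈ W}

theorem isOpen_S : IsOpen (S a w) := isOpen_W.preimage (by fun_prop)

theorem re_eq (v : ℂ) : (w + a * v * Complex.I).re = w.re - a * v.im := by simp; ring

theorem im_eq (v : ℂ) : (w + a * v * Complex.I).im = w.im + a * v.re := by simp

variable {a w}

theorem mem_S (ha : 0 ≤ a) (hw : |w.re| + π * a / 2 < π / 2) {v : ℂ} (hv : |v.im| ≤ π / 2) :
    v ∈ S a w := by
  show |(w + a * v * Complex.I).re| < π / 2
  rw [re_eq]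
  have h1 := abs_sub w.re (a * v.im)
  rw [abs_mul, abs_of_nonneg ha] at h1
  nlinarith

theorem ff_diff : DifferentiableOn ℂ (ff a w) (S a w) := by
  intro v hv
  have h1 : HasDerivAt (fun v : ℂ => w + a * v * Complex.I) (a * 1 * Complex.I) v :=
    (((hasDerivAt_id v).const_mul (a : ℂ)).mul_const Complex.I).const_add w
  exact ((LL_deriv hv).comp v h1).differentiableAt.differentiableWithinAt

theorem ff_deriv0 (h0 : w ∈ W) : HasDerivAt (ff a w) (g w * (a * Complex.I)) 0 := by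
  have h1 : HasDerivAt (fun v : ℂ => w + a * v * Complex.I) (a * 1 * Complex.I) 0 :=
    (((hasDerivAt_id (0:ℂ)).const_mul (a : ℂ)).mul_const Complex.I).const_add w
  have h2 : w + a * 0 * Complex.I ∈ W := by simpa using h0
  have h3 := (LL_deriv h2).comp (0:ℂ) h1
  have h4 : w + a * 0 * Complex.I = w := by simp
  rw [h4] at h3
  exact h3.congr_deriv (by ring)

theorem zero_mem_S (h0 : w ∈ W) : (0:ℂ) ∈ S a w := by
  show w + a * 0 * Complex.I ∈ W
  simpa using h0

theorem kq_eq (h0 : w ∈ W) (v : ℂ) (hv : |v.im| ≤ π / 2) (hv0 : v ≠ 0) :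
    kq a w v = KK a w v / Complex.sinh v ^ 2 := by
  have h1 := sub_smul_dslope (ff a w) 0 v
  have h2 := sub_smul_dslope (dslope (ff a w) 0) 0 v
  rw [dslope_same, (ff_deriv0 h0).deriv] at h2
  simp only [sub_zero, smul_eq_mul] at h1 h2
  have h3 := s1_eq v
  have h4 := s1_ne hv
  unfold kq KK
  rw [← h3, div_eq_div_iff (pow_ne_zero 2 h4) (pow_ne_zero 2 (mul_ne_zero hv0 h4))]
  rw [← h1]
  have h5 : v * dslope (ff a w) 0 v - v * (g w * (a * Complex.I)) =
      v * (v * dslope (dslope (ff a w) 0) 0 v) := by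
    rw [h2]
    ring
  rw [h5]
  ring

theorem kq_diff (h0 : w ∈ W) : DifferentiableOn ℂ (kq a w) (S a w ∩ {v | s1 v ≠ 0}) := by
  have hS := (isOpen_S a w).mem_nhds (zero_mem_S h0)
  have h1 : DifferentiableOn ℂ (dslope (dslope (ff a w) 0) 0) (S a w) :=
    (Complex.differentiableOn_dslope hS).2 ((Complex.differentiableOn_dslope hS).2 ff_diff)
  unfold kq
  apply DifferentiableOn.div (h1.mono inter_subset_left)
  · exact (s1_diff.pow 2).differentiableOn
  · intro v hv
    exact pow_ne_zero 2 hv.2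

theorem KK_bound (ha : 0 ≤ a) (ha1 : a ≤ 1) (hw : |w.re| + π * a / 2 < π / 2) :
    ∃ M : ℝ, 0 ≤ M ∧ ∀ v : ℂ, |v.im| ≤ π / 2 → ‖KK a w v‖ ≤ M * (1 + |v.re|) ^ 2 := by
  set c := π / 2 - (|w.re| + π * a / 2) with hc
  have hpi := Real.pi_pos
  have hc0 : 0 < c := by linarith
  have hc2 : c ≤ π / 2 := by
    have := abs_nonneg w.re
    have : 0 ≤ π * a / 2 := by positivity
    linarith
  obtain ⟨C, hC, hb⟩ := LL_bound c hc0 hc2
  refine ⟨C * (1 + |w.im|) ^ 2 + ‖ff a w 0‖ + 2 * ‖g w * (a * Complex.I)‖, by positivity,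
    fun v hv => ?_⟩
  have h1 : ‖ff a w v‖ ≤ C * (1 + |w.im|) ^ 2 * (1 + |v.re|) ^ 2 := by
    have h2 := hb (w + a * v * Complex.I) (by
      rw [re_eq]
      have h1 := abs_sub w.re (a * v.im)
      rw [abs_mul, abs_of_nonneg ha] at h1
      nlinarith)
    rw [im_eq] at h2
    unfold ff
    refine h2.trans ?_
    have h2 := abs_im_le w.im a v.re ha ha1
    have h3 := abs_nonneg v.re
    have h4 := abs_nonneg w.im
    have h5 : 1 + |w.im + a * v.re| ≤ (1 + |w.im|) * (1 + |v.re|) := by nlinarith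
    have h6 : (1 + |w.im + a * v.re|) ^ 2 ≤ ((1 + |w.im|) * (1 + |v.re|)) ^ 2 :=
      pow_le_pow_left₀ (by positivity) h5 2
    calc C * (1 + |w.im + a * v.re|) ^ 2 ≤ C * ((1 + |w.im|) * (1 + |v.re|)) ^ 2 :=
          mul_le_mul_of_nonneg_left h6 hC.le
      _ = _ := by ring
  have h2 : ‖v‖ ≤ 2 * (1 + |v.re|) ^ 2 := by
    have h3 := Complex.norm_le_abs_re_add_abs_im v
    have h4 : π / 2 ≤ 2 := by linarith [Real.pi_le_four]
    nlinarith [abs_nonneg v.re]
  have h3 : ‖KK a w v‖ ≤ ‖ff a w v‖ + ‖ff a w 0‖ + ‖v‖ * ‖g w * (a * Complex.I)‖ := by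
    unfold KK
    have h4 := norm_sub_le (ff a w v - ff a w 0) (v * (g w * (a * Complex.I)))
    have h5 := norm_sub_le (ff a w v) (ff a w 0)
    rw [norm_mul v] at h4
    linarith
  have h6 : 1 ≤ (1 + |v.re|) ^ 2 := by nlinarith [abs_nonneg v.re]
  have h7 : ‖ff a w 0‖ ≤ ‖ff a w 0‖ * (1 + |v.re|) ^ 2 := le_mul_of_one_le_right (norm_nonneg _) h6
  have h8 := mul_le_mul_of_nonneg_right h2 (norm_nonneg (g w * (a * Complex.I)))
  calc _ ≤ _ := h3
    _ ≤ C * (1 + |w.im|) ^ 2 * (1 + |v.re|) ^ 2 + ‖ff a w 0‖ * (1 + |v.re|) ^ 2 +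
        2 * (1 + |v.re|) ^ 2 * ‖g w * (a * Complex.I)‖ := by linarith
    _ = _ := by ring

theorem KK_cont (ha : 0 ≤ a) (hw : |w.re| + π * a / 2 < π / 2) (e : ℝ) (he : |e| ≤ π / 2) :
    Continuous fun x : ℝ => KK a w (x + e * Complex.I) := by
  have h1 : ContinuousOn (KK a w) (S a w) := by
    unfold KK
    have := ff_diff.continuousOn (s := S a w) (f := ff a w)
    fun_prop
  rw [← continuousOn_univ]
  refine h1.comp (f := fun x : ℝ => (x + e * Complex.I : ℂ)) (by fun_prop) (fun x _ => ?_)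
  exact mem_S ha hw (by simpa using he)

theorem lineint (ha : 0 ≤ a) (ha1 : a ≤ 1) (hw : |w.re| + π * a / 2 < π / 2) (e : ℝ)
    (he : |e| ≤ π / 2) : Integrable fun x : ℝ => (sh x : ℂ) * KK a w (x + e * Complex.I) := by
  obtain ⟨M, -, hM⟩ := KK_bound ha ha1 hw
  exact dom (KK_cont ha hw e he) M fun x => by simpa using hM (x + e * Complex.I) (by simpa using he)

theorem kq_line (h0 : w ∈ W) (e : ℝ) (he : e = π / 2 ∨ e = -(π / 2)) (x : ℝ) :
    kq a w (x + e * Complex.I) = -((sh x : ℂ) * KK a w (x + e * Complex.I)) := by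
  have hpi := Real.pi_pos
  have h1 : |e| ≤ π / 2 := by
    rcases he with h | h
    · rw [h, abs_of_pos (by positivity)]
    · rw [h, abs_neg, abs_of_pos (by positivity)]
  have h2 : e ≠ 0 := by rcases he with h | h <;> rw [h] <;> simp [hpi.ne']
  have hne : (x + e * Complex.I : ℂ) ≠ 0 := by
    intro h
    have := congrArg Complex.im h
    simp at this
    exact h2 this
  rw [kq_eq h0 _ (by simpa using h1) hne]
  have h3 : Complex.sinh (x + e * Complex.I) ^ 2 = -((Real.cosh x : ℝ) : ℂ) ^ 2 := by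
    rw [sinh_parts]
    have e1 : (x + e * Complex.I : ℂ).re = x := by simp
    have e2 : (x + e * Complex.I : ℂ).im = e := by simp
    rw [e1, e2]
    have e3 : Real.cos e = 0 := by
      rcases he with h | h
      · rw [h, Real.cos_pi_div_two]
      · rw [h, Real.cos_neg, Real.cos_pi_div_two]
    have e4 : ((Real.sin e : ℝ) : ℂ) ^ 2 = 1 := by
      rcases he with h | h
      · rw [h, Real.sin_pi_div_two]; norm_num
      · rw [h, Real.sin_neg, Real.sin_pi_div_two]; norm_num
    rw [e3]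
    push_cast at e4 ⊢
    linear_combination ((Complex.cosh x) ^ 2 * Complex.I ^ 2) * e4 +
      (Complex.cosh x) ^ 2 * Complex.I_sq
  rw [h3]
  unfold sh
  have h4 : ((Real.cosh x : ℝ) : ℂ) ≠ 0 := by exact_mod_cast (Real.cosh_pos x).ne'
  push_cast at h4 ⊢
  field_simp

theorem side_bound (ha : 0 ≤ a) (ha1 : a ≤ 1) (hw : |w.re| + π * a / 2 < π / 2) (h0 : w ∈ W) :
    ∃ M : ℝ, 0 ≤ M ∧ ∀ v : ℂ, 1 ≤ |v.re| → |v.im| ≤ π / 2 → ‖kq a w v‖ ≤ M / |v.re| := by
  obtain ⟨M, hM0, hM⟩ := KK_bound ha ha1 hw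
  refine ⟨16 * M, by positivity, fun v h1 h2 => ?_⟩
  have hv0 : v ≠ 0 := by
    intro h
    rw [h] at h1
    simp at h1
    linarith
  rw [kq_eq h0 v h2 hv0, norm_div, norm_pow]
  have h3 := sinh_low v
  have h4 := hM v h2
  have h5 : 0 < |v.re| := by linarith
  have h6 : v.re ^ 4 = |v.re| ^ 4 := by rw [← abs_pow, abs_of_nonneg (by positivity)]
  rw [h6] at h3
  have h7 : (1 + |v.re|) ^ 2 ≤ 4 * |v.re| ^ 2 := by nlinarith
  have h8 : 0 < |v.re| ^ 4 / 4 := by positivity
  calc ‖KK a w v‖ / ‖Complex.sinh v‖ ^ 2 ≤ (M * (4 * |v.re| ^ 2)) / (|v.re| ^ 4 / 4) := by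
        apply div_le_div₀ (by positivity) _ h8 h3
        exact h4.trans (mul_le_mul_of_nonneg_left h7 hM0)
    _ = 16 * M / |v.re| ^ 2 := by field_simp; norm_num
    _ ≤ 16 * M / |v.re| := by
        apply div_le_div_of_nonneg_left (by positivity) h5
        nlinarith

theorem side_tendsto (ha : 0 ≤ a) (ha1 : a ≤ 1) (hw : |w.re| + π * a / 2 < π / 2) (h0 : w ∈ W)
    (σ : ℝ) (hσ : |σ| = 1) :
    Tendsto (fun T : ℝ => ∫ y in (-(π / 2))..(π / 2), kq a w ((σ * T : ℝ) + y * Complex.I)) atTop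
      (𝓝 0) := by
  obtain ⟨M, hM0, hM⟩ := side_bound ha ha1 hw h0
  have hpi := Real.pi_pos
  have h1 : Tendsto (fun T : ℝ => M / T * |π / 2 - -(π / 2)|) atTop (𝓝 0) := by
    have : Tendsto (fun T : ℝ => M / T) atTop (𝓝 0) := tendsto_const_nhds.div_atTop tendsto_id
    simpa using this.mul_const (|π / 2 - -(π / 2)|)
  refine squeeze_zero_norm' ?_ h1
  filter_upwards [eventually_ge_atTop 1] with T hT
  refine intervalIntegral.norm_integral_le_of_norm_le_const fun y hy => ?_
  rw [uIoc_of_le (by linarith)] at hy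
  have e1 : (((σ * T : ℝ) : ℂ) + y * Complex.I).re = σ * T := by simp
  have e2 : (((σ * T : ℝ) : ℂ) + y * Complex.I).im = y := by simp
  have h2 := hM ((σ * T : ℝ) + y * Complex.I) (by
    rw [e1, abs_mul, hσ, one_mul, abs_of_pos (by linarith)]
    exact hT) (by
    rw [e2, abs_le]
    constructor <;> linarith [hy.1, hy.2])
  rw [e1, abs_mul, hσ, one_mul, abs_of_pos (by linarith : 0 < T)] at h2
  exact h2

theorem contour (ha : 0 ≤ a) (ha1 : a ≤ 1) (hw : |w.re| + π * a / 2 < π / 2) :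
    ∫ x : ℝ, (sh x : ℂ) * KK a w (x + (-(π / 2) : ℝ) * Complex.I) =
      ∫ x : ℝ, (sh x : ℂ) * KK a w (x + (π / 2 : ℝ) * Complex.I) := by
  have hpi := Real.pi_pos
  have h0 : w ∈ W := by
    show |w.re| < π / 2
    have : 0 ≤ π * a / 2 := by positivity
    linarith
  have hrect : ∀ T : ℝ, 0 ≤ T →
      (∫ x in (-T)..T, kq a w (x + (-(π / 2) : ℝ) * Complex.I)) -
        (∫ x in (-T)..T, kq a w (x + (π / 2 : ℝ) * Complex.I)) +
        Complex.I • (∫ y in (-(π / 2))..(π / 2), kq a w ((1 * T : ℝ) + y * Complex.I)) -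
        Complex.I • (∫ y in (-(π / 2))..(π / 2), kq a w ((-1 * T : ℝ) + y * Complex.I)) = 0 := by
    intro T hT
    have h1 := Complex.integral_boundary_rect_eq_zero_of_differentiableOn (kq a w)
      ⟨-T, -(π / 2)⟩ ⟨T, π / 2⟩ ((kq_diff h0).mono ?_)
    · simpa using h1
    · intro v hv
      rw [Complex.mem_reProdIm] at hv
      have h2 := hv.2
      simp only at h2
      rw [uIcc_of_le (by linarith)] at h2
      have h3 : |v.im| ≤ π / 2 := abs_le.2 h2
      exact ⟨mem_S ha hw h3, s1_ne h3⟩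
  have e1 : |(-(π / 2))| ≤ π / 2 := by rw [abs_neg, abs_of_pos (by positivity)]
  have e2 : |π / 2| ≤ π / 2 := by rw [abs_of_pos (by positivity)]
  have j1 : Integrable fun x : ℝ => -((sh x : ℂ) * KK a w (x + (-(π / 2) : ℝ) * Complex.I)) :=
    (lineint ha ha1 hw (-(π / 2)) e1).neg
  have j2 : Integrable fun x : ℝ => -((sh x : ℂ) * KK a w (x + (π / 2 : ℝ) * Complex.I)) :=
    (lineint ha ha1 hw (π / 2) e2).neg
  have t1 := intervalIntegral_tendsto_integral j1 tendsto_neg_atTop_atBot tendsto_id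
  have t2 := intervalIntegral_tendsto_integral j2 tendsto_neg_atTop_atBot tendsto_id
  have t3 := (side_tendsto ha ha1 hw h0 1 (by simp)).const_smul Complex.I
  have t4 := (side_tendsto ha ha1 hw h0 (-1) (by simp)).const_smul Complex.I
  have t5 := ((t1.sub t2).add t3).sub t4
  have t6 : Tendsto (fun _ : ℝ => (0:ℂ)) atTop (𝓝 ((∫ x : ℝ,
      -((sh x : ℂ) * KK a w (x + (-(π / 2) : ℝ) * Complex.I))) -
      (∫ x : ℝ, -((sh x : ℂ) * KK a w (x + (π / 2 : ℝ) * Complex.I))) +
      Complex.I • (0:ℂ) - Complex.I • (0:ℂ))) := by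
    refine t5.congr' ?_
    filter_upwards [eventually_ge_atTop 0] with T hT
    rw [← hrect T hT]
    have q1 : ∫ x in (-T)..T, -((sh x : ℂ) * KK a w (x + (-(π / 2) : ℝ) * Complex.I)) =
        ∫ x in (-T)..T, kq a w (x + (-(π / 2) : ℝ) * Complex.I) :=
      intervalIntegral.integral_congr fun x _ => (kq_line h0 _ (Or.inr rfl) x).symm
    have q2 : ∫ x in (-T)..T, -((sh x : ℂ) * KK a w (x + (π / 2 : ℝ) * Complex.I)) =
        ∫ x in (-T)..T, kq a w (x + (π / 2 : ℝ) * Complex.I) :=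
      intervalIntegral.integral_congr fun x _ => (kq_line h0 _ (Or.inl rfl) x).symm
    simp only [id]
    rw [q1, q2]
  have t7 := tendsto_nhds_unique t6 tendsto_const_nhds
  rw [integral_neg, integral_neg, smul_zero, add_zero, sub_zero] at t7
  linear_combination -t7

/-- the difference equation -/
theorem Gf_diff (ha : 0 ≤ a) (ha1 : a ≤ 1) (hw : |w.re| + π * a / 2 < π / 2) :
    Gf a (w + (π * a / 2 : ℝ)) - Gf a (w - (π * a / 2 : ℝ)) = π * a * g w := by
  have hpi := Real.pi_pos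
  have h0 : w ∈ W := by
    show |w.re| < π / 2
    have : 0 ≤ π * a / 2 := by positivity
    linarith
  have hpa : 0 ≤ π * a / 2 := by positivity
  have m1 : w + (π * a / 2 : ℝ) ∈ W := by
    show |(w + (π * a / 2 : ℝ)).re| < π / 2
    rw [Complex.add_re, Complex.ofReal_re]
    have := abs_add_le w.re (π * a / 2)
    rw [abs_of_nonneg hpa] at this
    linarith
  have m2 : w - (π * a / 2 : ℝ) ∈ W := by
    show |(w - (π * a / 2 : ℝ)).re| < π / 2
    rw [Complex.sub_re, Complex.ofReal_re]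
    have := abs_sub w.re (π * a / 2)
    rw [abs_of_nonneg hpa] at this
    linarith
  have key := contour ha ha1 hw
  have i1 := int_LL m1 a ha ha1
  have i2 := int_LL m2 a ha ha1
  have e1 : (fun x : ℝ => (sh x : ℂ) * KK a w (x + (-(π / 2) : ℝ) * Complex.I)) = fun x : ℝ =>
      (sh x : ℂ) * LL (w + (π * a / 2 : ℝ) + (a * x : ℝ) * Complex.I) +
        ((sh x : ℂ) * (-ff a w 0 + π / 2 * Complex.I * (g w * (a * Complex.I))) -
        (sh x : ℂ) * (x * (g w * (a * Complex.I)))) := by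
    funext x
    unfold KK
    have : ff a w (x + (-(π / 2) : ℝ) * Complex.I) =
        LL (w + (π * a / 2 : ℝ) + (a * x : ℝ) * Complex.I) := by
      unfold ff
      congr 1
      push_cast
      linear_combination (-(a * π / 2) : ℂ) * Complex.I_sq
    rw [this]
    push_cast
    ring
  have e2 : (fun x : ℝ => (sh x : ℂ) * KK a w (x + (π / 2 : ℝ) * Complex.I)) = fun x : ℝ =>
      (sh x : ℂ) * LL (w - (π * a / 2 : ℝ) + (a * x : ℝ) * Complex.I) +
        ((sh x : ℂ) * (-ff a w 0 - π / 2 * Complex.I * (g w * (a * Complex.I))) -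
        (sh x : ℂ) * (x * (g w * (a * Complex.I)))) := by
    funext x
    unfold KK
    have : ff a w (x + (π / 2 : ℝ) * Complex.I) =
        LL (w - (π * a / 2 : ℝ) + (a * x : ℝ) * Complex.I) := by
      unfold ff
      congr 1
      push_cast
      linear_combination ((a * π / 2) : ℂ) * Complex.I_sq
    rw [this]
    push_cast
    ring
  have i3 : Integrable fun x : ℝ => (sh x : ℂ) * (x * (g w * (a * Complex.I))) := by
    refine dom (by fun_prop) ‖g w * (a * Complex.I)‖ fun u => ?_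
    rw [norm_mul, Complex.norm_real, Real.norm_eq_abs, mul_comm]
    apply mul_le_mul_of_nonneg_left _ (norm_nonneg _)
    nlinarith [abs_nonneg u]
  have i4 : ∀ z : ℂ, Integrable fun x : ℝ => (sh x : ℂ) * z := fun z => int_shc.mul_const z
  have i5 : ∀ z : ℂ, Integrable fun x : ℝ => (sh x : ℂ) * z -
      (sh x : ℂ) * (x * (g w * (a * Complex.I))) := fun z => (i4 z).sub i3
  rw [e1, e2, integral_add i1 (i5 _), integral_add i2 (i5 _), integral_sub (i4 _) i3, integral_sub (i4 _) i3, integral_mul_const, integral_mul_const,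
    integral_shc] at key
  unfold Gf
  linear_combination 1 / 2 * key + (-(π * a) * g w) * Complex.I_sq

end

end Pool.Agent.N207.VS
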